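import Pool.Agent.Helper843.PK.Support
set_option autoImplicit false
open Real MeasureTheory

namespace H843PK




/-- Support function of a plane set in the direction `(cos θ, sin θ)`. -/
noncomputable def supportFn (K : Set ℂ) (θ : ℝ) : ℝ :=
  sSup ((fun z : ℂ => z.re * cos θ + z.im * sin θ) '' K)

/-- Perimeter of a compact convex set (Cauchy's formula). -/
noncomputable def perimeter (K : Set ℂ) : ℝ := ∫ θ in (0:ℝ)..(2*π), supportFn K θ

/-- The near-disc of size `r`. -/
def body (r : ℝ) : Set ℂ := {z | ∀ θ : ℝ, z.re * cos θ + z.im * sin θ ≤ r * h θ}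


theorem body_aux_hbd (θ : ℝ) : 1 / 2 ≤ h θ ∧ h θ ≤ 2 := by
  have h1 := Real.neg_one_le_cos (13 * θ)
  have h2 := Real.cos_le_one (13 * θ)
  have h3 := Real.neg_one_le_cos (26 * θ)
  have h4 := Real.cos_le_one (26 * θ)
  unfold h ep ka
  constructor <;> linarith

theorem body_aux_dotle (z : ℂ) (θ : ℝ) : z.re * cos θ + z.im * sin θ ≤ ‖z‖ := by
  refine (le_abs_self _).trans ?_
  rw [Complex.norm_def]
  apply Real.abs_le_sqrt
  rw [Complex.normSq_apply]
  have h1 := Real.sin_sq_add_cos_sq θ
  nlinarith [sq_nonneg (z.re * sin θ - z.im * cos θ), sq_nonneg z.re, sq_nonneg z.im]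

theorem body_pt (r : ℝ) (hr : 0 < r) (θ : ℝ) :
    (⟨r * (h θ * cos θ - h' θ * sin θ), r * (h θ * sin θ + h' θ * cos θ)⟩ : ℂ) ∈ body r := by
  intro φ
  show r * (h θ * cos θ - h' θ * sin θ) * cos φ + r * (h θ * sin θ + h' θ * cos θ) * sin φ ≤
    r * h φ
  have h1 := h_support θ φ
  rw [Real.cos_sub, Real.sin_sub] at h1
  have h2 := mul_le_mul_of_nonneg_left h1 hr.le
  linarith

theorem body_convex (r : ℝ) : Convex ℝ (body r) := by
  intro x hx y hy a b ha hb hab θ
  have h1 := mul_le_mul_of_nonneg_left (hx θ) ha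
  have h2 := mul_le_mul_of_nonneg_left (hy θ) hb
  have h3 : (a • x + b • y).re * cos θ + (a • x + b • y).im * sin θ =
      a * (x.re * cos θ + x.im * sin θ) + b * (y.re * cos θ + y.im * sin θ) := by
    simp only [Complex.add_re, Complex.add_im, Complex.real_smul, Complex.re_ofReal_mul,
      Complex.im_ofReal_mul]
    ring
  have h4 : a * (r * h θ) + b * (r * h θ) = r * h θ := by
    rw [← add_mul, hab, one_mul]
  rw [h3]
  linarith

theorem body_compact (r : ℝ) (hr : 0 < r) : IsCompact (body r) := by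
  apply Metric.isCompact_of_isClosed_isBounded
  · have h1 : body r = ⋂ θ : ℝ, {z : ℂ | z.re * cos θ + z.im * sin θ ≤ r * h θ} := by
      ext z
      simp [body]
    rw [h1]
    refine isClosed_iInter fun θ => isClosed_le ?_ continuous_const
    exact (Complex.continuous_re.mul continuous_const).add
      (Complex.continuous_im.mul continuous_const)
  · refine (Metric.isBounded_closedBall (x := (0 : ℂ)) (r := r * 2)).subset ?_
    intro z hz
    rw [mem_closedBall_zero_iff]
    have h1 := hz z.arg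
    have h2 : z.re * cos z.arg + z.im * sin z.arg = ‖z‖ := by
      have h3 := Complex.norm_mul_cos_arg z
      have h4 := Complex.norm_mul_sin_arg z
      have h5 := Real.sin_sq_add_cos_sq z.arg
      calc z.re * cos z.arg + z.im * sin z.arg =
          (‖z‖ * cos z.arg) * cos z.arg + (‖z‖ * sin z.arg) * sin z.arg := by rw [h3, h4]
        _ = ‖z‖ := by linear_combination ‖z‖ * h5
    rw [h2] at h1
    exact h1.trans (mul_le_mul_of_nonneg_left (body_aux_hbd _).2 hr.le)

theorem body_ball (r : ℝ) (hr : 0 < r) : Metric.ball (0:ℂ) (r/2) ⊆ body r := by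
  intro z hz θ
  rw [mem_ball_zero_iff] at hz
  have h1 := body_aux_dotle z θ
  have h2 := mul_le_mul_of_nonneg_left (body_aux_hbd θ).1 hr.le
  linarith

theorem body_support (r : ℝ) (hr : 0 < r) (θ : ℝ) : supportFn (body r) θ = r * h θ := by
  unfold supportFn
  apply IsGreatest.csSup_eq
  constructor
  · refine ⟨_, body_pt r hr θ, ?_⟩
    show r * (h θ * cos θ - h' θ * sin θ) * cos θ + r * (h θ * sin θ + h' θ * cos θ) * sin θ =
      r * h θ
    have h5 := Real.sin_sq_add_cos_sq θ
    linear_combination r * h θ * h5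
  · rintro _ ⟨z, hz, rfl⟩
    exact hz θ

theorem body_perimeter (r : ℝ) (hr : 0 < r) : perimeter (body r) = 2 * π * r := by
  unfold perimeter
  have h1 : (fun θ => supportFn (body r) θ) = fun θ => r * h θ := funext (body_support r hr)
  rw [h1, intervalIntegral.integral_const_mul]
  have hc : ∀ c : ℕ, c ≠ 0 → ∫ θ in (0:ℝ)..(2*π), cos ((c : ℝ) * θ) = 0 := by
    intro c hc
    have hc' : (c : ℝ) ≠ 0 := Nat.cast_ne_zero.2 hc
    rw [intervalIntegral.integral_comp_mul_left (fun x => cos x) hc', integral_cos, mul_zero,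
      Real.sin_zero]
    have h2 : (c : ℝ) * (2 * π) = ((2 * c : ℕ) : ℝ) * π := by
      push_cast
      ring
    rw [h2, Real.sin_nat_mul_pi, sub_zero, smul_zero]
  have h13 := hc 13 (by norm_num)
  have h26 := hc 26 (by norm_num)
  push_cast at h13 h26
  have hi1 : IntervalIntegrable (fun θ : ℝ => ep * cos (13 * θ)) volume 0 (2 * π) :=
    (Continuous.intervalIntegrable (by fun_prop) _ _)
  have hi2 : IntervalIntegrable (fun θ : ℝ => ka * cos (26 * θ)) volume 0 (2 * π) :=
    (Continuous.intervalIntegrable (by fun_prop) _ _)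
  have hi0 : IntervalIntegrable (fun _ : ℝ => (1 : ℝ)) volume 0 (2 * π) :=
    intervalIntegrable_const
  have h3 : ∫ θ in (0:ℝ)..(2*π), h θ = 2 * π := by
    have h4 : ∫ θ in (0:ℝ)..(2*π), h θ =
        ∫ θ in (0:ℝ)..(2*π), ((fun _ : ℝ => (1 : ℝ)) θ + ep * cos (13 * θ)) + ka * cos (26 * θ) :=
      rfl
    rw [h4, intervalIntegral.integral_add (hi0.add hi1) hi2,
      intervalIntegral.integral_add hi0 hi1, intervalIntegral.integral_const_mul,
      intervalIntegral.integral_const_mul, h13, h26]
    simp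
  rw [h3]
  ring


end H843PK
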