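import Mathlib
set_option autoImplicit false
open Real Filter Topology

namespace H843PK

/-- same definition as in the result file -/
def Acc {k : ℕ} (c : ℂ) (R : ℝ) (K : Fin k → Set ℂ) : Prop :=
  ∃ a b : Fin k → ℂ, (∀ i, ‖a i‖ = 1) ∧
    (∀ i, (fun z => a i * z + b i) '' K i ⊆ Metric.closedBall c R) ∧
    ∀ i j, i ≠ j → Disjoint (interior ((fun z => a i * z + b i) '' K i))
      (interior ((fun z => a j * z + b j) '' K j))

theorem int_image (a b : ℂ) (ha : a ≠ 0) (K : Set ℂ) :
    interior ((fun z => a*z+b) '' K) = (fun z => a*z+b) '' interior K :=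
  (((Homeomorph.mulLeft₀ a ha).trans (Homeomorph.addRight b)).image_interior K).symm

theorem acc_translate {k : ℕ} (c : ℂ) (R : ℝ) (K : Fin k → Set ℂ) (h : Acc c R K) :
    Acc 0 R K := by
  obtain ⟨a, b, ha, hin, hd⟩ := h
  have ha0 : ∀ i, a i ≠ 0 := by
    intro i h0
    have := ha i
    rw [h0, norm_zero] at this; norm_num at this
  refine ⟨a, fun i => b i - c, ha, ?_, ?_⟩
  · rintro i _ ⟨z, hz, rfl⟩
    have := hin i ⟨z, hz, rfl⟩
    rw [Metric.mem_closedBall, dist_eq_norm] at this ⊢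
    have e : a i * z + (b i - c) - 0 = a i * z + b i - c := by ring
    rw [e]; exact this
  · intro i j hij
    have := hd i j hij
    rw [int_image _ _ (ha0 i), int_image _ _ (ha0 j)] at this ⊢
    rw [Set.disjoint_left] at this ⊢
    rintro p ⟨x, hx, hxp⟩ ⟨y, hy, hyp⟩
    refine this (a := p + c) ⟨x, hx, ?_⟩ ⟨y, hy, ?_⟩
    · rw [← hxp]; ring
    · rw [← hyp]; ring

theorem acc_limit {k : ℕ} (ρ : ℝ) (K : Fin k → Set ℂ) (hne : ∀ i, (K i).Nonempty)
    (h : ∀ R, ρ < R → ∃ c, Acc c R K) : Acc 0 ρ K := by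
  have h' : ∀ n : ℕ, Acc 0 (ρ + 1/((n:ℝ)+1)) K := by
    intro n
    obtain ⟨c, hc⟩ := h (ρ + 1/((n:ℝ)+1)) (by have : 0 < 1/((n:ℝ)+1) := by positivity
                                              linarith)
    exact acc_translate c _ K hc
  choose a b ha hin hd using h'
  choose z hz using hne
  -- boundedness
  have hbd : ∀ n, (a n, b n) ∈ Metric.closedBall (0 : (Fin k → ℂ) × (Fin k → ℂ))
      (1 + (|ρ| + 1 + ∑ i, ‖z i‖)) := by
    intro n
    have hS : 0 ≤ ∑ i, ‖z i‖ := Finset.sum_nonneg fun _ _ => norm_nonneg _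
    rw [mem_closedBall_zero_iff, Prod.norm_def]
    apply max_le
    · rw [pi_norm_le_iff_of_nonneg (by positivity)]
      intro i
      rw [ha n i]
      have := abs_nonneg ρ
      linarith
    · rw [pi_norm_le_iff_of_nonneg (by positivity)]
      intro i
      have h1 := hin n i ⟨z i, hz i, rfl⟩
      rw [mem_closedBall_zero_iff] at h1
      have h2 : ‖b n i‖ ≤ ‖a n i * z i + b n i‖ + ‖a n i * z i‖ := by
        have : b n i = (a n i * z i + b n i) - a n i * z i := by ring
        conv_lhs => rw [this]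
        exact norm_sub_le _ _
      have h3 : ‖a n i * z i‖ = ‖z i‖ := by rw [norm_mul, ha n i, one_mul]
      have h4 : ‖z i‖ ≤ ∑ i, ‖z i‖ :=
        Finset.single_le_sum (f := fun i => ‖z i‖) (fun _ _ => norm_nonneg _) (Finset.mem_univ i)
      have h5 : 1/((n:ℝ)+1) ≤ 1 := by
        rw [div_le_one (by positivity)]
        have : (0:ℝ) ≤ n := Nat.cast_nonneg n
        linarith
      have h6 := le_abs_self ρ
      simp only at h1
      linarith
  obtain ⟨⟨a', b'⟩, -, φ, hφ, hlim⟩ := tendsto_subseq_of_bounded Metric.isBounded_closedBall hbd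
  have hla : Tendsto (fun n => a (φ n)) atTop (𝓝 a') := (continuous_fst.tendsto _).comp hlim
  have hlb : Tendsto (fun n => b (φ n)) atTop (𝓝 b') := (continuous_snd.tendsto _).comp hlim
  have hlai : ∀ i, Tendsto (fun n => a (φ n) i) atTop (𝓝 (a' i)) := fun i =>
    ((continuous_apply i).tendsto _).comp hla
  have hlbi : ∀ i, Tendsto (fun n => b (φ n) i) atTop (𝓝 (b' i)) := fun i =>
    ((continuous_apply i).tendsto _).comp hlb
  have ha' : ∀ i, ‖a' i‖ = 1 := by
    intro i
    refine tendsto_nhds_unique (hlai i).norm ?_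
    simp only [ha]
    exact tendsto_const_nhds
  have ha0 : ∀ i, a' i ≠ 0 := by
    intro i h0
    have := ha' i
    rw [h0, norm_zero] at this; norm_num at this
  have han0 : ∀ n i, a n i ≠ 0 := by
    intro n i h0
    have := ha n i
    rw [h0, norm_zero] at this; norm_num at this
  refine ⟨a', b', ha', ?_, ?_⟩
  · rintro i _ ⟨w, hw, rfl⟩
    rw [mem_closedBall_zero_iff]
    have l1 : Tendsto (fun n => ‖a (φ n) i * w + b (φ n) i‖) atTop (𝓝 ‖a' i * w + b' i‖) :=
      (((hlai i).mul_const w).add (hlbi i)).norm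
    have l2 : Tendsto (fun n => ρ + 1/(((φ n : ℕ) : ℝ)+1)) atTop (𝓝 (ρ + 0)) :=
      tendsto_const_nhds.add (tendsto_one_div_add_atTop_nhds_zero_nat.comp hφ.tendsto_atTop)
    rw [add_zero] at l2
    refine le_of_tendsto_of_tendsto' l1 l2 fun n => ?_
    have := hin (φ n) i ⟨w, hw, rfl⟩
    rw [mem_closedBall_zero_iff] at this
    exact this
  · intro i j hij
    rw [int_image _ _ (ha0 i), int_image _ _ (ha0 j), Set.disjoint_left]
    rintro p ⟨x, hx, hxp⟩ ⟨y, hy, hyp⟩
    have key : ∀ (i : Fin k) (x : ℂ), x ∈ interior (K i) → a' i * x + b' i = p →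
        ∀ᶠ n in atTop, p ∈ interior ((fun z => a (φ n) i * z + b (φ n) i) '' K i) := by
      intro i x hx hxp
      have l : Tendsto (fun n => (a (φ n) i)⁻¹ * (p - b (φ n) i)) atTop (𝓝 ((a' i)⁻¹ * (p - b' i))) :=
        ((hlai i).inv₀ (ha0 i)).mul (tendsto_const_nhds.sub (hlbi i))
      have ex : (a' i)⁻¹ * (p - b' i) = x := by
        rw [← hxp, add_sub_cancel_right, ← mul_assoc, inv_mul_cancel₀ (ha0 i), one_mul]
      rw [ex] at l
      have := l (isOpen_interior.mem_nhds hx)
      filter_upwards [this] with n hn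
      rw [int_image _ _ (han0 _ i)]
      refine ⟨_, hn, ?_⟩
      show a (φ n) i * ((a (φ n) i)⁻¹ * (p - b (φ n) i)) + b (φ n) i = p
      rw [← mul_assoc, mul_inv_cancel₀ (han0 _ i)]; ring
    obtain ⟨n, hn1, hn2⟩ := ((key i x hx hxp).and (key j y hy hyp)).exists
    exact (Set.disjoint_left.1 (hd (φ n) i j hij)) hn1 hn2

/-- failure at radius `ρ` persists at slightly larger radii -/
theorem not_acc_open {k : ℕ} (ρ : ℝ) (K : Fin k → Set ℂ) (hne : ∀ i, (K i).Nonempty)
    (h : ¬ Acc 0 ρ K) : ∃ R, ρ < R ∧ ∀ c, ¬ Acc c R K := by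
  by_contra hcon
  push Not at hcon
  exact h (acc_limit ρ K hne hcon)

end H843PK
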