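import Mathlib
set_option autoImplicit false
open Real

namespace H843PK


theorem G_eta_quad (A C q x y : ℝ) (hA : 0 < A) (h : q ^ 2 ≤ 4 * A * C) :
    0 ≤ A * x ^ 2 + q * x * y + C * y ^ 2 := by
  have h1 : 4 * A * (A * x ^ 2 + q * x * y + C * y ^ 2) = (2 * A * x + q * y) ^ 2
      + (4 * A * C - q ^ 2) * y ^ 2 := by ring
  have h2 : 0 ≤ (2 * A * x + q * y) ^ 2 + (4 * A * C - q ^ 2) * y ^ 2 := by
    have : 0 ≤ 4 * A * C - q ^ 2 := by linarith
    positivity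
  rw [← h1] at h2
  by_contra hcon
  push Not at hcon
  have : 4 * A * (A * x ^ 2 + q * x * y + C * y ^ 2) < 0 := mul_neg_of_pos_of_neg (by linarith) hcon
  linarith

theorem G_eta (r cb sb η c2n c2t c3n c3t : ℝ) (hr : r^2 = 3) (hr0 : 0 < r)
    (hcb1 : 0.8659 ≤ cb) (hcb2 : cb ≤ 0.8661) (hsb1 : 0.4999 ≤ sb) (hsb2 : sb ≤ 0.5001)
    (hη : |η| ≤ 1/100000)
    (h1 : c2n^2+c2t^2 ≤ 4/3) (h2 : c3n^2+c3t^2 ≤ 4/3) (h3 : 4 ≤ (c2n-c3n)^2+(c2t-c3t)^2) :
    -cb*(c2n+c3n)+sb*(c2t-c3t)+η*(-cb*(c2n-c3n)+sb*(c2t+c3t)) ≤ 2*r/3*cb+2*sb+0.334*η^2 := by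
  have hr1 : (1.73205 : ℝ) ≤ r := by
    by_contra hcon
    push Not at hcon
    nlinarith
  have hr2 : r ≤ (1.73206 : ℝ) := by
    by_contra hcon
    push Not at hcon
    nlinarith
  obtain ⟨hη1, hη2⟩ := abs_le.1 hη
  have hlam : (0.3749 : ℝ) ≤ r / 4 * cb := by nlinarith
  set lam := r / 4 * cb with hlamdef
  set p := sb / 4 with hp
  have hp1 : (0.124975 : ℝ) ≤ p := by rw [hp]; linarith
  have hp2 : p ≤ (0.125025 : ℝ) := by rw [hp]; linarith
  set d1 := c2n - c3n with hd1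
  set d2 := c2t - c3t - 2 with hd2
  set m1 := c2n + c3n + 2 * r / 3 with hm1
  set m2 := c2t + c3t with hm2
  set q1 := cb - r / 3 with hq1
  set q2 := 1 - sb with hq2
  have hq1a : (0.2885 : ℝ) ≤ q1 := by rw [hq1]; linarith
  have hq1b : q1 ≤ (0.28875 : ℝ) := by rw [hq1]; linarith
  have hq2a : (0.4999 : ℝ) ≤ q2 := by rw [hq2]; linarith
  have hq2b : q2 ≤ (0.5001 : ℝ) := by rw [hq2]; linarith
  have hQ : 0 ≤ p * (d1 ^ 2 + d2 ^ 2) + lam * (m1 ^ 2 + m2 ^ 2) + η * q1 * d1 + η * q2 * m2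
      + (η / 2) * (m1 * d1 + m2 * d2) + 0.334 * η ^ 2 := by
    have a1 := G_eta_quad 0.1249 0.1670 q1 d1 η (by norm_num) (by nlinarith)
    have a2 := G_eta_quad 0.3748 0.1670 q2 m2 η (by norm_num) (by nlinarith)
    have b1 := G_eta_quad (1/100000) (1/100000) (η / 2) m1 d1 (by norm_num) (by nlinarith)
    have b2 := G_eta_quad (1/100000) (1/100000) (η / 2) m2 d2 (by norm_num) (by nlinarith)
    have c1 : 0 ≤ (p - 0.1249 - 1/100000) * d1 ^ 2 := mul_nonneg (by linarith) (sq_nonneg _)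
    have c2 : 0 ≤ (p - 1/100000) * d2 ^ 2 := mul_nonneg (by linarith) (sq_nonneg _)
    have c3 : 0 ≤ (lam - 1/100000) * m1 ^ 2 := mul_nonneg (by linarith) (sq_nonneg _)
    have c4 : 0 ≤ (lam - 0.3748 - 1/100000) * m2 ^ 2 := mul_nonneg (by linarith) (sq_nonneg _)
    nlinarith
  have hid : (2*r/3*cb+2*sb+0.334*η^2) - (-cb*(c2n+c3n)+sb*(c2t-c3t)+η*(-cb*(c2n-c3n)+sb*(c2t+c3t)))
      = (2 * lam + η / 2) * (4 / 3 - (c2n ^ 2 + c2t ^ 2)) + (2 * lam - η / 2) * (4 / 3 - (c3n ^ 2 + c3t ^ 2))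
        + (lam - p) * ((c2n - c3n) ^ 2 + (c2t - c3t) ^ 2 - 4)
        + (p * (d1 ^ 2 + d2 ^ 2) + lam * (m1 ^ 2 + m2 ^ 2) + η * q1 * d1 + η * q2 * m2
      + (η / 2) * (m1 * d1 + m2 * d2) + 0.334 * η ^ 2) := by
    rw [hlamdef, hp, hd1, hd2, hm1, hm2, hq1, hq2]
    linear_combination (-(cb * ((c2n + c3n) / 3 + r / 9))) * hr
  have t1 : 0 ≤ (2 * lam + η / 2) * (4 / 3 - (c2n ^ 2 + c2t ^ 2)) :=
    mul_nonneg (by linarith) (by linarith)
  have t2 : 0 ≤ (2 * lam - η / 2) * (4 / 3 - (c3n ^ 2 + c3t ^ 2)) :=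
    mul_nonneg (by linarith) (by linarith)
  have t3 : 0 ≤ (lam - p) * ((c2n - c3n) ^ 2 + (c2t - c3t) ^ 2 - 4) :=
    mul_nonneg (by linarith) (by linarith)
  linarith

theorem G_zero (r cb sb c2n c2t c3n c3t : ℝ) (hr : r^2 = 3) (hr0 : 0 < r)
    (hcb : 0 ≤ cb) (hsb : 0 ≤ sb) (hcs : sb ≤ r * cb)
    (h1 : c2n^2+c2t^2 ≤ 4/3) (h2 : c3n^2+c3t^2 ≤ 4/3) (h3 : 4 ≤ (c2n-c3n)^2+(c2t-c3t)^2) :
    -cb*(c2n+c3n)+sb*(c2t-c3t) ≤ 2*r/3*cb+2*sb := by
  have hlam : 0 ≤ r / 4 * cb := by positivity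
  have hp : 0 ≤ sb / 4 := by positivity
  have hmu : 0 ≤ r / 4 * cb - sb / 4 := by linarith
  have hid : (2*r/3*cb+2*sb) - (-cb*(c2n+c3n)+sb*(c2t-c3t))
      = (2 * (r / 4 * cb)) * (4 / 3 - (c2n ^ 2 + c2t ^ 2)) + (2 * (r / 4 * cb)) * (4 / 3 - (c3n ^ 2 + c3t ^ 2))
        + (r / 4 * cb - sb / 4) * ((c2n - c3n) ^ 2 + (c2t - c3t) ^ 2 - 4)
        + ((sb / 4) * ((c2n - c3n) ^ 2 + (c2t - c3t - 2) ^ 2)
          + (r / 4 * cb) * ((c2n + c3n + 2 * r / 3) ^ 2 + (c2t + c3t) ^ 2)) := by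
    linear_combination (-(cb * ((c2n + c3n) / 3 + r / 9))) * hr
  have t1 : 0 ≤ (2 * (r / 4 * cb)) * (4 / 3 - (c2n ^ 2 + c2t ^ 2)) :=
    mul_nonneg (by linarith) (by linarith)
  have t2 : 0 ≤ (2 * (r / 4 * cb)) * (4 / 3 - (c3n ^ 2 + c3t ^ 2)) :=
    mul_nonneg (by linarith) (by linarith)
  have t3 : 0 ≤ (r / 4 * cb - sb / 4) * ((c2n - c3n) ^ 2 + (c2t - c3t) ^ 2 - 4) :=
    mul_nonneg hmu (by linarith)
  have t4 : 0 ≤ (sb / 4) * ((c2n - c3n) ^ 2 + (c2t - c3t - 2) ^ 2) := by positivity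
  have t5 : 0 ≤ (r / 4 * cb) * ((c2n + c3n + 2 * r / 3) ^ 2 + (c2t + c3t) ^ 2) := by positivity
  linarith



theorem T_large (δ C S : ℝ) (hδ : 3/100000 ≤ |δ|) (hδ1 : |δ| ≤ π/6) (hCS : C^2+S^2 = 1) :
    0 < 4*(1 - cos δ) + 2*(1/1000000)*C*(cos (π/6-δ) - cos (13*(π/6-δ)))
      + 2*(1/100000000000)*(C^2-S^2)*(cos (π/6-δ) + cos (26*(π/6-δ))) := by
  have hpi : π < 3.15 := Real.pi_lt_d2
  have hd : |δ| ≤ 0.525 := by linarith
  have hd0 : 0 < |δ| := by linarith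
  have hcos := Real.cos_bound (x := δ) (by linarith)
  have hsq : δ ^ 2 = |δ| ^ 2 := (sq_abs δ).symm
  have h1 : 1 - cos δ ≥ |δ| ^ 2 * 0.48 := by
    have h2 := (abs_le.1 hcos).2
    have h3 : |δ| ^ 4 * (5 / 96) ≤ |δ| ^ 2 * 0.0145 := by
      have : |δ| ^ 4 = |δ| ^ 2 * |δ| ^ 2 := by ring
      rw [this]
      have h4 : |δ| ^ 2 ≤ 0.2757 := by nlinarith
      nlinarith [sq_nonneg |δ|]
    nlinarith [sq_nonneg |δ|]
  have hlip : |cos (π/6-δ) - cos (13*(π/6-δ))| ≤ 12 * |δ| := by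
    have e : cos (13*(π/6-δ)) = cos (π/6 - 13*δ) := by
      rw [← Real.cos_add_two_pi (π/6 - 13*δ)]
      congr 1
      ring
    rw [e]
    refine (Real.abs_cos_sub_cos_le (π/6-δ) (π/6 - 13*δ)).trans (le_of_eq ?_)
    have e2 : π/6-δ - (π/6 - 13*δ) = 12 * δ := by ring
    rw [e2, abs_mul]
    norm_num
  have hC : |C| ≤ 1 := by
    apply abs_le_of_sq_le_sq _ (by norm_num)
    nlinarith [sq_nonneg S]
  have hCS' : |C^2 - S^2| ≤ 1 := by
    rw [abs_le]; constructor <;> nlinarith [sq_nonneg S, sq_nonneg C]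
  have h5 : |cos (π/6-δ) + cos (26*(π/6-δ))| ≤ 2 := by
    rw [abs_le]
    constructor <;> linarith [Real.cos_le_one (π/6-δ), Real.cos_le_one (26*(π/6-δ)),
      Real.neg_one_le_cos (π/6-δ), Real.neg_one_le_cos (26*(π/6-δ))]
  have h6 : |C * (cos (π/6-δ) - cos (13*(π/6-δ)))| ≤ 12 * |δ| := by
    rw [abs_mul]
    calc _ ≤ 1 * (12 * |δ|) := mul_le_mul hC hlip (abs_nonneg _) (by norm_num)
      _ = _ := one_mul _
  have h7 : |(C^2-S^2) * (cos (π/6-δ) + cos (26*(π/6-δ)))| ≤ 2 := by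
    rw [abs_mul]
    calc _ ≤ 1 * 2 := mul_le_mul hCS' h5 (abs_nonneg _) (by norm_num)
      _ = _ := one_mul _
  have h6' := (abs_le.1 h6).1
  have h7' := (abs_le.1 h7).1
  have e1 : 2*(1/1000000)*C*(cos (π/6-δ) - cos (13*(π/6-δ))) =
    2*(1/1000000)*(C*(cos (π/6-δ) - cos (13*(π/6-δ)))) := by ring
  have e2 : 2*(1/100000000000)*(C^2-S^2)*(cos (π/6-δ) + cos (26*(π/6-δ))) =
    2*(1/100000000000)*((C^2-S^2)*(cos (π/6-δ) + cos (26*(π/6-δ)))) := by ring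
  rw [e1, e2]
  nlinarith


/-- If `A` is compact convex with nonempty interior, and its interior is disjoint from the open disc
`ball b r`, then some direction `α` separates `A` from the disc. -/
theorem separate (A : Set ℂ) (hA : Convex ℝ A) (hAc : IsClosed A) (hAi : (interior A).Nonempty)
    (b : ℂ) (r : ℝ) (hr : 0 < r) (hd : Disjoint (interior A) (Metric.ball b r)) :
    ∃ α : ℝ, ∀ z ∈ A, z.re * cos α + z.im * sin α + r ≤ b.re * cos α + b.im * sin α := by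
  obtain ⟨f, u, h1, h2⟩ := geometric_hahn_banach_open_open hA.interior isOpen_interior
    (convex_ball b r) Metric.isOpen_ball hd
  have hf : ∀ z : ℂ, f z = z.re * f 1 + z.im * f Complex.I := by
    intro z
    have hz : z = z.re • (1 : ℂ) + z.im • Complex.I := by
      apply Complex.ext <;> simp
    conv_lhs => rw [hz]
    rw [map_add, map_smul, map_smul]
    simp
  set w : ℂ := ⟨f 1, f Complex.I⟩ with hw
  have hre : f 1 = ‖w‖ * cos w.arg := by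
    have := Complex.norm_mul_cos_arg w
    rw [this]
  have him : f Complex.I = ‖w‖ * sin w.arg := by
    have := Complex.norm_mul_sin_arg w
    rw [this]
  have hA' : ∀ z ∈ A, f z ≤ u := by
    intro z hz
    have hcl : A ⊆ closure (interior A) := by
      rw [hA.closure_interior_eq_closure_of_nonempty_interior hAi]
      exact subset_closure
    have hsub : closure (interior A) ⊆ {z | f z ≤ u} := by
      apply closure_minimal
      · intro x hx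
        exact (h1 x hx).le
      · exact isClosed_le f.continuous continuous_const
    exact hsub (hcl hz)
  have hB' : ∀ z ∈ Metric.closedBall b r, u ≤ f z := by
    intro z hz
    rw [← closure_ball b hr.ne'] at hz
    have hsub : closure (Metric.ball b r) ⊆ {z | u ≤ f z} := by
      apply closure_minimal
      · intro x hx
        exact (h2 x hx).le
      · exact isClosed_le continuous_const f.continuous
    exact hsub hz
  have hl : 0 < ‖w‖ := by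
    rcases (norm_nonneg w).lt_or_eq with h | h
    · exact h
    · exfalso
      obtain ⟨a, ha⟩ := hAi
      have e1 := h1 a ha
      have e2 := h2 b (Metric.mem_ball_self hr)
      rw [hf, hre, him, ← h] at e1 e2
      simp at e1 e2
      linarith
  refine ⟨w.arg, fun z hz => ?_⟩
  have e1 := hA' z hz
  have hmem : (b - (r : ℂ) * (⟨cos w.arg, sin w.arg⟩ : ℂ)) ∈ Metric.closedBall b r := by
    rw [Metric.mem_closedBall, dist_eq_norm]
    have : b - (r : ℂ) * (⟨cos w.arg, sin w.arg⟩ : ℂ) - b = -((r : ℂ) * (⟨cos w.arg, sin w.arg⟩ : ℂ)) := by ring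
    rw [this, norm_neg, norm_mul, Complex.norm_real, Real.norm_eq_abs, abs_of_pos hr]
    have hn : ‖(⟨cos w.arg, sin w.arg⟩ : ℂ)‖ = 1 := by
      rw [Complex.norm_def, Complex.normSq_mk]
      rw [← sq, ← sq, cos_sq_add_sin_sq, Real.sqrt_one]
    rw [hn, mul_one]
  have e2 := hB' _ hmem
  rw [hf, hre, him] at e1 e2
  simp only [Complex.sub_re, Complex.mul_re, Complex.ofReal_re, Complex.ofReal_im, zero_mul, sub_zero,
    Complex.sub_im, Complex.mul_im, add_zero] at e2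
  have hcs := cos_sq_add_sin_sq w.arg
  have key : ‖w‖ * (z.re * cos w.arg + z.im * sin w.arg + r) ≤
      ‖w‖ * (b.re * cos w.arg + b.im * sin w.arg) := by
    have e3 : ‖w‖ * r = ‖w‖ * r * (cos w.arg ^ 2 + sin w.arg ^ 2) := by rw [hcs, mul_one]
    nlinarith [e1, e2, e3]
  exact le_of_mul_le_mul_left key hl


end H843PK
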