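import Mathlib
set_option autoImplicit false
open Real

namespace H843PK

theorem T_small_sin (x : ℝ) (hx : |x| ≤ 1) : |sin x - x| ≤ |x| ^ 3 / 4 := by
  have h := Real.sin_bound hx
  have h0 := abs_nonneg x
  have h1 : |x| ^ 5 ≤ |x| ^ 3 := pow_le_pow_of_le_one h0 hx (by norm_num)
  have h2 : |x ^ 3 / 6| = |x| ^ 3 / 6 := by rw [abs_div, abs_pow]; norm_num
  have h3 : |sin x - x| ≤ |sin x - (x - x ^ 3 / 6)| + |x ^ 3 / 6| := by
    have : sin x - x = (sin x - (x - x ^ 3 / 6)) + (-(x ^ 3 / 6)) := by ring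
    rw [this]
    refine (abs_add_le _ _).trans ?_
    rw [abs_neg]
  rw [h2] at h3
  have : 0 ≤ |x| ^ 3 := by positivity
  linarith

theorem T_small_cos (x : ℝ) (hx : |x| ≤ 1) : |cos x - (1 - x ^ 2 / 2)| ≤ |x| ^ 3 / 16 := by
  have h := Real.cos_bound hx
  have h0 := abs_nonneg x
  have h1 : |x| ^ 4 ≤ |x| ^ 3 := by
    have : 0 ≤ |x| ^ 3 := by positivity
    nlinarith
  have : 0 ≤ |x| ^ 3 := by positivity
  linarith

/-- the algebraic part: `t = δ / ε` -/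
theorem T_small_alg (t C S : ℝ) (hCS : C ^ 2 + S ^ 2 = 1) :
    0.1 ≤ 1.998 * t ^ 2 - 12 * C * t + 27.32 * (C ^ 2 - S ^ 2) + 37.5 * S ^ 2 := by
  have h1 : 1.998 * t ^ 2 - 12 * C * t + 18.1 * C ^ 2 ≥ 0 := by
    nlinarith [sq_nonneg (t - (6 / 1.998) * C), sq_nonneg C]
  have hS : S ^ 2 = 1 - C ^ 2 := by linarith
  have hC : C ^ 2 ≤ 1 := by nlinarith [sq_nonneg S]
  rw [hS]
  nlinarith

theorem T_small (δ C S : ℝ) (hδ : |δ| ≤ 3/100000) (hCS : C^2+S^2 = 1) :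
    0 < 4*(1 - cos δ) + 2*(1/1000000)*C*(cos (π/6-δ) - cos (13*(π/6-δ)))
      + 2*(1/100000000000)*(C^2-S^2)*(cos (π/6-δ) + cos (26*(π/6-δ)))
      + 6*(1/1000000)*S*((1/1000000)*S*(26*sin (π/6-δ) - 2*sin (13*(π/6-δ)))
          + 4*(1/100000000000)*S*C*(26*sin (π/6-δ) + sin (26*(π/6-δ))))
      - 36*(1/1000000)^2*S^2*0.957 := by
  obtain ⟨r, hr0, hr⟩ : ∃ r : ℝ, 0 < r ∧ r ^ 2 = 3 := ⟨√3, by positivity, Real.sq_sqrt (by norm_num)⟩
  have hrs : √3 = r := by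
    rw [← hr]; exact Real.sqrt_sq hr0.le
  have hr1 : (1.732 : ℝ) ≤ r := by
    by_contra hcon
    push Not at hcon
    nlinarith
  have hr2 : r ≤ (1.7321 : ℝ) := by
    by_contra hcon
    push Not at hcon
    nlinarith
  set u := |δ| with hu
  have hu0 : 0 ≤ u := abs_nonneg _
  have hu2 : δ ^ 2 = u ^ 2 := (sq_abs δ).symm
  have hδle : δ ≤ u := le_abs_self δ
  have hδge : -u ≤ δ := neg_abs_le δ
  have u13 : |13 * δ| = 13 * u := by rw [abs_mul, ← hu]; norm_num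
  have u26 : |26 * δ| = 26 * u := by rw [abs_mul, ← hu]; norm_num
  have ru : r * u ≤ 1.7321 * (3/100000) := mul_le_mul hr2 hδ hu0 (by norm_num)
  have s1 := T_small_sin δ (by linarith)
  have s13 := T_small_sin (13 * δ) (by rw [u13]; linarith)
  have s26 := T_small_sin (26 * δ) (by rw [u26]; linarith)
  have c1 := T_small_cos δ (by linarith)
  have c13 := T_small_cos (13 * δ) (by rw [u13]; linarith)
  have c26 := T_small_cos (26 * δ) (by rw [u26]; linarith)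
  rw [u13] at s13 c13
  rw [u26] at s26 c26
  rw [← hu] at s1 c1
  obtain ⟨s1a, s1b⟩ := abs_le.1 s1
  obtain ⟨s13a, s13b⟩ := abs_le.1 s13
  obtain ⟨s26a, s26b⟩ := abs_le.1 s26
  obtain ⟨c1a, c1b⟩ := abs_le.1 c1
  obtain ⟨c13a, c13b⟩ := abs_le.1 c13
  obtain ⟨c26a, c26b⟩ := abs_le.1 c26
  -- u^3 small
  have hu3 : u ^ 3 ≤ (3/100000) * u ^ 2 := by
    have h1 := mul_le_mul_of_nonneg_right hδ (sq_nonneg u)
    have h2 : u * u ^ 2 = u ^ 3 := by ring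
    rw [h2] at h1
    exact h1
  have hu3' : 0 ≤ u ^ 3 := by positivity
  have hu2' : u ^ 2 ≤ (3/100000) * u := by
    have h1 := mul_le_mul_of_nonneg_right hδ hu0
    have h2 : u * u = u ^ 2 := by ring
    rw [h2] at h1
    exact h1
  have e26u : (26 * u) ^ 3 = 17576 * u ^ 3 := by ring
  have e13u : (13 * u) ^ 3 = 2197 * u ^ 3 := by ring
  have e13d : (13 * δ) ^ 2 = 169 * u ^ 2 := by rw [mul_pow, hu2]; norm_num
  have e26d : (26 * δ) ^ 2 = 676 * u ^ 2 := by rw [mul_pow, hu2]; norm_num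
  rw [e26u] at s26a s26b c26a c26b
  rw [e13u] at s13a s13b c13a c13b
  rw [e13d] at c13a c13b
  rw [e26d] at c26a c26b
  rw [hu2] at c1a c1b
  -- angle formulas
  have hc6 : cos (π / 6) = r / 2 := by rw [Real.cos_pi_div_six, hrs]
  have hs6 : sin (π / 6) = 1 / 2 := Real.sin_pi_div_six
  have hc3 : cos (π / 3) = 1 / 2 := Real.cos_pi_div_three
  have hs3 : sin (π / 3) = r / 2 := by rw [Real.sin_pi_div_three, hrs]
  have f1 : cos (π / 6 - δ) = r / 2 * cos δ + 1 / 2 * sin δ := by rw [cos_sub, hc6, hs6]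
  have f2 : sin (π / 6 - δ) = 1 / 2 * cos δ - r / 2 * sin δ := by rw [sin_sub, hc6, hs6]
  have a13 : 13 * (π / 6 - δ) = (π / 6 - 13 * δ) + 2 * π := by ring
  have a26 : 26 * (π / 6 - δ) = (π / 3 - 26 * δ) + 2 * π + 2 * π := by ring
  have f3 : cos (13 * (π / 6 - δ)) = r / 2 * cos (13 * δ) + 1 / 2 * sin (13 * δ) := by
    rw [a13, cos_add_two_pi, cos_sub, hc6, hs6]
  have f4 : sin (13 * (π / 6 - δ)) = 1 / 2 * cos (13 * δ) - r / 2 * sin (13 * δ) := by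
    rw [a13, sin_add_two_pi, sin_sub, hc6, hs6]
  have f5 : cos (26 * (π / 6 - δ)) = 1 / 2 * cos (26 * δ) + r / 2 * sin (26 * δ) := by
    rw [a26, cos_add_two_pi, cos_add_two_pi, cos_sub, hc3, hs3]
  have f6 : sin (26 * (π / 6 - δ)) = r / 2 * cos (26 * δ) - 1 / 2 * sin (26 * δ) := by
    rw [a26, sin_add_two_pi, sin_add_two_pi, sin_sub, hc3, hs3]
  rw [f1, f2, f3, f4, f5, f6]
  generalize cos δ = c at *
  generalize sin δ = s at *
  generalize cos (13 * δ) = cc at *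
  generalize sin (13 * δ) = ss at *
  generalize cos (26 * δ) = ccc at *
  generalize sin (26 * δ) = sss at *
  -- the four combinations
  have hP1a : -(75 * u ^ 2) ≤ (r / 2 * c + 1 / 2 * s - (r / 2 * cc + 1 / 2 * ss)) + 6 * δ := by
    have h1 : -(u ^ 2) ≤ c - cc := by linarith
    have h2 : r * -(u ^ 2) ≤ r * (c - cc) := mul_le_mul_of_nonneg_left h1 hr0.le
    have h3 : r * u ^ 2 ≤ 1.7321 * u ^ 2 := mul_le_mul_of_nonneg_right hr2 (by positivity)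
    linarith
  have hP1b : (r / 2 * c + 1 / 2 * s - (r / 2 * cc + 1 / 2 * ss)) + 6 * δ ≤ 75 * u ^ 2 := by
    have h1 : c - cc ≤ 84.1 * u ^ 2 := by linarith
    have h2 : r * (c - cc) ≤ r * (84.1 * u ^ 2) := mul_le_mul_of_nonneg_left h1 hr0.le
    have h3 : r * (84.1 * u ^ 2) ≤ 1.7321 * (84.1 * u ^ 2) := mul_le_mul_of_nonneg_right hr2 (by positivity)
    linarith
  have hsmall : u ^ 2 ≤ 1/1000000000 := by
    refine hu2'.trans ?_
    refine (mul_le_mul_of_nonneg_left hδ (by norm_num)).trans (by norm_num)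
  have hssd : -(27 * u) ≤ sss ∧ sss ≤ 27 * u := by constructor <;> linarith
  have hssd' : -(14 * u) ≤ ss ∧ ss ≤ 14 * u := by constructor <;> linarith
  have hsd : -(2 * u) ≤ s ∧ s ≤ 2 * u := by constructor <;> linarith
  have hcr : (0.9999999 : ℝ) ≤ c ∧ c ≤ 1.0000001 := by constructor <;> linarith
  have hccr : (0.9999998 : ℝ) ≤ cc ∧ cc ≤ 1.0000001 := by constructor <;> linarith
  have hcccr : (0.999999 : ℝ) ≤ ccc ∧ ccc ≤ 1.0000001 := by constructor <;> linarith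
  have hrc1 : 1.732 * 0.9999999 ≤ r * c := mul_le_mul hr1 hcr.1 (by norm_num) hr0.le
  have hrc2 : r * c ≤ 1.7321 * 1.0000001 := mul_le_mul hr2 hcr.2 (by linarith [hcr.1]) (by norm_num)
  have hrss1 : -(0.0015 : ℝ) ≤ r * sss := by
    have h1 : r * -(27 * u) ≤ r * sss := mul_le_mul_of_nonneg_left hssd.1 hr0.le
    linarith
  have hrss2 : r * sss ≤ (0.0015 : ℝ) := by
    have h1 : r * sss ≤ r * (27 * u) := mul_le_mul_of_nonneg_left hssd.2 hr0.le
    linarith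
  have hP2a : (1.3649 : ℝ) ≤ r / 2 * c + 1 / 2 * s + (1 / 2 * ccc + r / 2 * sss) := by
    linarith [hsd.1, hcccr.1]
  have hP2b : r / 2 * c + 1 / 2 * s + (1 / 2 * ccc + r / 2 * sss) ≤ (1.3670 : ℝ) := by
    linarith [hsd.2, hcccr.2]
  have hrs1 : -(0.00011 : ℝ) ≤ r * s := by
    have h1 : r * -(2 * u) ≤ r * s := mul_le_mul_of_nonneg_left hsd.1 hr0.le
    linarith
  have hrs2 : r * s ≤ (0.00011 : ℝ) := by
    have h1 : r * s ≤ r * (2 * u) := mul_le_mul_of_nonneg_left hsd.2 hr0.le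
    linarith
  have hrs13 : -(0.0008 : ℝ) ≤ r * ss := by
    have h1 : r * -(14 * u) ≤ r * ss := mul_le_mul_of_nonneg_left hssd'.1 hr0.le
    linarith
  have hP3 : (11.99 : ℝ) ≤ 26 * (1 / 2 * c - r / 2 * s) - 2 * (1 / 2 * cc - r / 2 * ss) := by
    linarith [hcr.1, hccr.2]
  have hrcc1 : 0 ≤ r * ccc := mul_nonneg hr0.le (by linarith [hcccr.1])
  have hrcc2 : r * ccc ≤ 1.7321 * 1.0000001 := mul_le_mul hr2 hcccr.2 (by linarith [hcccr.1]) (by norm_num)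
  have hP4a : (0 : ℝ) ≤ 26 * (1 / 2 * c - r / 2 * s) + (r / 2 * ccc - 1 / 2 * sss) := by
    linarith [hcr.1, hssd.2]
  have hP4b : 26 * (1 / 2 * c - r / 2 * s) + (r / 2 * ccc - 1 / 2 * sss) ≤ (27 : ℝ) := by
    linarith [hcr.2, hssd.1]
  have hT0 : 1.999 * u ^ 2 ≤ 4 * (1 - c) := by linarith
  generalize hg1 : r / 2 * c + 1 / 2 * s - (r / 2 * cc + 1 / 2 * ss) = P1 at *
  generalize hg2 : r / 2 * c + 1 / 2 * s + (1 / 2 * ccc + r / 2 * sss) = P2 at *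
  generalize hg3 : 26 * (1 / 2 * c - r / 2 * s) - 2 * (1 / 2 * cc - r / 2 * ss) = P3 at *
  generalize hg4 : 26 * (1 / 2 * c - r / 2 * s) + (r / 2 * ccc - 1 / 2 * sss) = P4 at *
  -- bounds for C and S
  have hC2 : C ^ 2 ≤ 1 := by rw [← hCS]; exact le_add_of_nonneg_right (sq_nonneg S)
  have hS2 : S ^ 2 ≤ 1 := by rw [← hCS]; exact le_add_of_nonneg_left (sq_nonneg C)
  have hC1 : |C| ≤ 1 := by
    rw [← sq_abs] at hC2
    exact (sq_le_one_iff₀ (abs_nonneg _)).1 hC2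
  obtain ⟨hCa, hCb⟩ := abs_le.1 hC1
  -- term 2
  have t2 : -12 * C * δ - 150 * u ^ 2 ≤ 2 * C * P1 := by
    have h1 : |P1 + 6 * δ| ≤ 75 * u ^ 2 := abs_le.2 ⟨hP1a, hP1b⟩
    have h2 : |C * (P1 + 6 * δ)| ≤ 75 * u ^ 2 := by
      rw [abs_mul]
      calc |C| * |P1 + 6 * δ| ≤ 1 * |P1 + 6 * δ| := mul_le_mul_of_nonneg_right hC1 (abs_nonneg _)
        _ ≤ _ := by rw [one_mul]; exact h1
    have h3 := (abs_le.1 h2).1
    linarith
  -- term 3
  have t3 : 1.366 * (C ^ 2 - S ^ 2) - 0.0011 ≤ (C ^ 2 - S ^ 2) * P2 := by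
    have h1 : |P2 - 1.366| ≤ 0.0011 := abs_le.2 ⟨by linarith, by linarith⟩
    have h0 : |C ^ 2 - S ^ 2| ≤ 1 := abs_le.2 ⟨by linarith [sq_nonneg C], by linarith [sq_nonneg S]⟩
    have h2 : |(C ^ 2 - S ^ 2) * (P2 - 1.366)| ≤ 0.0011 := by
      rw [abs_mul]
      calc |C ^ 2 - S ^ 2| * |P2 - 1.366| ≤ 1 * |P2 - 1.366| := mul_le_mul_of_nonneg_right h0 (abs_nonneg _)
        _ ≤ _ := by rw [one_mul]; exact h1
    have h3 := (abs_le.1 h2).1
    linarith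
  -- term 4
  have t4 : 11.99 * S ^ 2 ≤ S ^ 2 * P3 := by
    have := mul_le_mul_of_nonneg_left hP3 (sq_nonneg S)
    linarith
  -- term 5
  have t5 : -27 ≤ S ^ 2 * C * P4 := by
    have h1 : |S ^ 2 * C * P4| ≤ 27 := by
      rw [abs_mul, abs_mul, abs_of_nonneg (sq_nonneg S), abs_of_nonneg hP4a]
      calc S ^ 2 * |C| * P4 ≤ 1 * 1 * P4 := by
            apply mul_le_mul_of_nonneg_right _ hP4a
            exact mul_le_mul hS2 hC1 (abs_nonneg _) (by norm_num)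
        _ ≤ 27 := by linarith
    exact (abs_le.1 h1).1
  have hal := T_small_alg (1000000 * δ) C S hCS
  have hu2'' : (1000000 * δ) ^ 2 = 1000000000000 * u ^ 2 := by rw [mul_pow, hu2]; norm_num
  rw [hu2''] at hal
  have hu20 : 0 ≤ u ^ 2 := by positivity
  have hS20 : 0 ≤ S ^ 2 := sq_nonneg S
  have final : 4 * (1 - c) + 2 * (1 / 1000000) * C * P1
      + 2 * (1 / 100000000000) * (C ^ 2 - S ^ 2) * P2
      + 6 * (1 / 1000000) * S * ((1 / 1000000) * S * P3 + 4 * (1 / 100000000000) * S * C * P4)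
      - 36 * (1 / 1000000) ^ 2 * S ^ 2 * 0.957
      = 4 * (1 - c) + (1 / 1000000) * (2 * C * P1)
      + 2 * (1 / 100000000000) * ((C ^ 2 - S ^ 2) * P2)
      + 6 * (1 / 1000000000000) * (S ^ 2 * P3) + 24 * (1 / 100000000000000000) * (S ^ 2 * C * P4)
      - 36 * (1 / 1000000) ^ 2 * S ^ 2 * 0.957 := by ring
  rw [final]
  linarith

end H843PK
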