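import Pool.Agent.Helper843.PK.Support
import Pool.Agent.Helper843.PK.Ineq
import Pool.Agent.Helper843.PK.Tsmall
set_option autoImplicit false
open Real

namespace H843PK

/-- the two support numbers at the discs -/
theorem h_minus (ψ β : ℝ) : h (ψ+π-β) = 1 - ep*(cos (13*ψ)*cos (13*β) + sin (13*ψ)*sin (13*β))
    + ka*((cos (13*ψ)^2 - sin (13*ψ)^2)*cos (26*β) + 2*sin (13*ψ)*cos (13*ψ)*sin (26*β)) := by
  have e1 : cos (13*(ψ+π-β)) = -(cos (13*ψ)*cos (13*β) + sin (13*ψ)*sin (13*β)) := by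
    have : 13*(ψ+π-β) = (13*ψ-13*β) + π + ((6:ℕ):ℝ)*(2*π) := by push_cast; ring
    rw [this, Real.cos_add_nat_mul_two_pi, Real.cos_add_pi, Real.cos_sub]
  have e2 : cos (26*(ψ+π-β)) = (cos (13*ψ)^2 - sin (13*ψ)^2)*cos (26*β)
      + 2*sin (13*ψ)*cos (13*ψ)*sin (26*β) := by
    have : 26*(ψ+π-β) = (2*(13*ψ)-26*β) + ((13:ℕ):ℝ)*(2*π) := by push_cast; ring
    rw [this, Real.cos_add_nat_mul_two_pi, Real.cos_sub, Real.cos_two_mul', Real.sin_two_mul]
  rw [h, e1, e2]; ring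

theorem h_plus (ψ β : ℝ) : h (ψ+π+β) = 1 - ep*(cos (13*ψ)*cos (13*β) - sin (13*ψ)*sin (13*β))
    + ka*((cos (13*ψ)^2 - sin (13*ψ)^2)*cos (26*β) - 2*sin (13*ψ)*cos (13*ψ)*sin (26*β)) := by
  have := h_minus ψ (-β)
  have e : ψ+π- -β = ψ+π+β := by ring
  rw [e] at this
  rw [this]
  have a1 : 13 * -β = -(13*β) := by ring
  have a2 : 26 * -β = -(26*β) := by ring
  rw [a1, a2, Real.cos_neg, Real.sin_neg, Real.cos_neg, Real.sin_neg]; ring

theorem h_eq (ψ : ℝ) : h ψ = 1 + ep*cos (13*ψ) + ka*(cos (13*ψ)^2 - sin (13*ψ)^2) := by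
  have : 26*ψ = 2*(13*ψ) := by ring
  rw [h, this, Real.cos_two_mul']

theorem h'_eq (ψ : ℝ) : h' ψ = -(13*ep*sin (13*ψ)) - 52*ka*(sin (13*ψ)*cos (13*ψ)) := by
  have : 26*ψ = 2*(13*ψ) := by ring
  rw [h', this, Real.sin_two_mul]; ring

theorem core_real (β ψ c2n c2t c3n c3t τ s : ℝ) (hβ0 : 0 ≤ β) (hβ1 : β ≤ π/2)
    (h1 : c2n^2+c2t^2 ≤ 4/3) (h2 : c3n^2+c3t^2 ≤ 4/3) (h3 : 4 ≤ (c2n-c3n)^2+(c2t-c3t)^2)
    (h4 : (τ + h ψ)^2 + (s + h' ψ)^2 ≤ (1+2/√3)^2)
    (h5 : 1 + h (ψ+π-β) ≤ -cos β * (c2n - τ) + sin β * (c2t - s))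
    (h6 : 1 + h (ψ+π+β) ≤ -cos β * (c3n - τ) - sin β * (c3t - s)) : False := by
  rw [h_minus] at h5
  rw [h_plus] at h6
  rw [h_eq, h'_eq] at h4
  obtain ⟨r, hrdef⟩ : ∃ r : ℝ, r = √3 := ⟨_, rfl⟩
  have hr : r^2 = 3 := by rw [hrdef]; norm_num
  have hr0 : 0 < r := by rw [hrdef]; positivity
  have hr1 : 1.732 < r := by
    rw [hrdef]; apply Real.lt_sqrt_of_sq_lt; norm_num
  have hr2 : r < 1.7321 := by
    nlinarith
  have hR : 1+2/√3 = 1 + 2*r/3 := by
    rw [← hrdef]; field_simp; nlinarith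
  rw [hR] at h4
  have hCS : cos (13*ψ)^2 + sin (13*ψ)^2 = 1 := by rw [add_comm]; exact Real.sin_sq_add_cos_sq _
  generalize hC : cos (13*ψ) = C at *
  generalize hS : sin (13*ψ) = S at *
  have hcs : cos β^2 + sin β^2 = 1 := by rw [add_comm]; exact Real.sin_sq_add_cos_sq _
  have hcb0 : 0 ≤ cos β := Real.cos_nonneg_of_mem_Icc ⟨by linarith [Real.pi_pos], hβ1⟩
  have hsb0 : 0 ≤ sin β := Real.sin_nonneg_of_nonneg_of_le_pi hβ0 (by linarith [Real.pi_pos])
  have hC1 : |C| ≤ 1 := abs_le.2 ⟨by nlinarith, by nlinarith⟩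
  have hS1 : |S| ≤ 1 := abs_le.2 ⟨by nlinarith, by nlinarith⟩
  have hsum : 4 + (-2*ep*C*cos (13*β) + 2*ka*(C^2-S^2)*cos (26*β)) ≤
      -cos β*(c2n+c3n) + sin β*(c2t-c3t) + 2*cos β*τ := by nlinarith
  have hτ : τ ≤ 2*r/3 - (ep*C + ka*(C^2-S^2)) := by
    have : (τ + (1 + ep*C + ka*(C^2-S^2)))^2 ≤ (1+2*r/3)^2 := by nlinarith [sq_nonneg (s + (-(13*ep*S) - 52*ka*(S*C)))]
    have := abs_le_of_sq_le_sq' this (by positivity)
    linarith [this.2]
  by_cases hA : π/4 ≤ β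
  · -- case A
    have hcb : cos β ≤ √2/2 := by
      rw [← Real.cos_pi_div_four]
      exact Real.cos_le_cos_of_nonneg_of_le_pi (by positivity) (by linarith [Real.pi_pos]) hA
    have hs2 : √2 < 1.4143 := by
      rw [Real.sqrt_lt' (by norm_num)]; norm_num
    have hc2 : -cos β*c2n + sin β*c2t ≤ 1.155 := by
      have : (-cos β*c2n + sin β*c2t)^2 ≤ 1.155^2 := by
        have e : (-cos β*c2n + sin β*c2t)^2 + (sin β*c2n+cos β*c2t)^2 = (cos β^2+sin β^2)*(c2n^2+c2t^2) := by ring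
        rw [hcs] at e
        nlinarith [sq_nonneg (sin β*c2n+cos β*c2t)]
      exact (abs_le_of_sq_le_sq' this (by norm_num)).2
    have hc3 : -cos β*c3n - sin β*c3t ≤ 1.155 := by
      have : (-cos β*c3n - sin β*c3t)^2 ≤ 1.155^2 := by
        have e : (-cos β*c3n - sin β*c3t)^2 + (sin β*c3n-cos β*c3t)^2 = (cos β^2+sin β^2)*(c3n^2+c3t^2) := by ring
        rw [hcs] at e
        nlinarith [sq_nonneg (sin β*c3n-cos β*c3t)]
      exact (abs_le_of_sq_le_sq' this (by norm_num)).2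
    have hcc : |cos (13*β)| ≤ 1 := Real.abs_cos_le_one _
    have hcc2 : |cos (26*β)| ≤ 1 := Real.abs_cos_le_one _
    have hD : |C^2-S^2| ≤ 1 := abs_le.2 ⟨by nlinarith, by nlinarith⟩
    have b1 : |C*cos (13*β)| ≤ 1 := by
      rw [abs_mul]; exact mul_le_one₀ hC1 (abs_nonneg _) hcc
    have b2 : |(C^2-S^2)*cos (26*β)| ≤ 1 := by
      rw [abs_mul]; exact mul_le_one₀ hD (abs_nonneg _) hcc2
    have hτ2 : τ ≤ 1.155 := by
      have := (abs_le.1 hC1).1
      have := (abs_le.1 hD).1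
      rw [ep, ka] at hτ
      linarith
    have e1 := (abs_le.1 b1).2
    have e2 := (abs_le.1 b2).1
    have hsum2 : 4 - 2*ep*(C*cos (13*β)) + 2*ka*((C^2-S^2)*cos (26*β)) ≤
      (-cos β*c2n + sin β*c2t) + (-cos β*c3n - sin β*c3t) + 2*cos β*τ := by linarith
    rw [ep, ka] at hsum2
    have : 2*cos β*τ ≤ 2*0.7072*1.155 := by
      have : cos β * τ ≤ 0.7072*1.155 := by
        calc cos β * τ ≤ cos β * 1.155 := by gcongr
          _ ≤ 0.7072*1.155 := by gcongr; linarith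
      linarith
    linarith
  · push Not at hA
    have hident : 2*r*cos β + 2*sin β = 4*cos (π/6-β) := by
      rw [Real.cos_sub, Real.cos_pi_div_six, Real.sin_pi_div_six, ← hrdef]; ring
    have hδ1 : |π/6-β| ≤ π/6 := abs_le.2 ⟨by linarith [Real.pi_pos], by linarith⟩
    have hββ : π/6 - (π/6-β) = β := by ring
    by_cases hB : 3/100000 ≤ |π/6-β|
    · -- case B
      have hT := T_large (π/6-β) C S hB hδ1 hCS
      rw [hββ] at hT
      have hcs2 : sin β ≤ r * cos β := by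
        have : sin β ≤ cos β := by
          rw [← Real.cos_pi_div_two_sub]
          exact Real.cos_le_cos_of_nonneg_of_le_pi hβ0 (by linarith [Real.pi_pos]) (by linarith)
        nlinarith
      have hG := G_zero r (cos β) (sin β) c2n c2t c3n c3t hr hr0 hcb0 hsb0 hcs2 h1 h2 h3
      have hm : 2*cos β*τ ≤ 2*cos β*(2*r/3 - (ep*C + ka*(C^2-S^2))) :=
        mul_le_mul_of_nonneg_left hτ (by positivity)
      rw [ep, ka] at *
      nlinarith
    · -- case C
      push Not at hB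
      have hT := T_small (π/6-β) C S hB.le hCS
      rw [hββ] at hT
      have hb := abs_lt.1 hB
      have hcb1 : |cos β - cos (π/6)| ≤ 3/100000 := by
        have := Real.abs_cos_sub_cos_le β (π/6)
        rw [abs_sub_comm] at hB
        linarith
      have hsb1 : |sin β - sin (π/6)| ≤ 3/100000 := by
        have := Real.abs_sin_sub_sin_le β (π/6)
        rw [abs_sub_comm] at hB
        linarith
      rw [Real.cos_pi_div_six, ← hrdef] at hcb1
      rw [Real.sin_pi_div_six] at hsb1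
      have hcb2 := abs_le.1 hcb1
      have hsb2 := abs_le.1 hsb1
      have hη : |6*ep*S| ≤ 1/100000 := by
        rw [ep, abs_mul]; norm_num; linarith
      have hG := G_eta r (cos β) (sin β) (6*ep*S) c2n c2t c3n c3t hr hr0 (by linarith) (by linarith)
        (by linarith) (by linarith) hη h1 h2 h3
      obtain ⟨η, hηd⟩ : ∃ η : ℝ, η = 6*ep*S := ⟨_, rfl⟩
      rw [← hηd] at hG hη
      have hη2 := abs_le.1 hη
      -- weighted sum
      have hw : (1+η)*(1 + (1 - ep*(C*cos (13*β) + S*sin (13*β))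
            + ka*((C^2 - S^2)*cos (26*β) + 2*S*C*sin (26*β))))
          + (1-η)*(1 + (1 - ep*(C*cos (13*β) - S*sin (13*β))
            + ka*((C^2 - S^2)*cos (26*β) - 2*S*C*sin (26*β))))
          ≤ (1+η)*(-cos β * (c2n - τ) + sin β * (c2t - s)) + (1-η)*(-cos β * (c3n - τ) - sin β * (c3t - s)) := by
        have a1 := mul_le_mul_of_nonneg_left h5 (show 0 ≤ 1+η by linarith)
        have a2 := mul_le_mul_of_nonneg_left h6 (show 0 ≤ 1-η by linarith)
        linarith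
      set U := τ + (1 + ep*C + ka*(C^2-S^2)) with hU
      set V := s + (-(13*ep*S) - 52*ka*(S*C)) with hV
      obtain ⟨R, hRd⟩ : ∃ R : ℝ, R = 1+2*r/3 := ⟨_, rfl⟩
      rw [← hRd] at h4
      have hR0 : 0 < R := by rw [hRd]; positivity
      have hcbp : 0 < cos β := by linarith
      have hUV : 2*cos β*U - 2*η*sin β*V ≤ 2*R*cos β + R*η^2*(sin β^2/cos β) := by
        have k1 : 0 ≤ (cos β/R)*(R^2 - U^2 - V^2) := by
          apply mul_nonneg (by positivity); linarith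
        have k2 : 2*R*cos β + R*η^2*(sin β^2/cos β) - (2*cos β*U - 2*η*sin β*V)
            = (cos β/R)*(R^2 - U^2 - V^2) + (cos β/R)*((R-U)^2 + (V + R*η*sin β/cos β)^2) := by
          field_simp; ring
        have k3 : 0 ≤ (cos β/R)*((R-U)^2 + (V + R*η*sin β/cos β)^2) := by positivity
        linarith
      have hBq : 0.334 + R*(sin β^2/cos β) ≤ 0.957 := by
        have : sin β^2/cos β ≤ 0.2889 := by
          rw [div_le_iff₀ hcbp]; nlinarith
        have hRl : R ≤ 2.1548 := by rw [hRd]; linarith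
        have : R*(sin β^2/cos β) ≤ 2.1548*0.2889 := by
          apply mul_le_mul hRl this (by positivity) (by norm_num)
        linarith
      have hBq2 : η^2*(0.334 + R*(sin β^2/cos β)) ≤ η^2*0.957 :=
        mul_le_mul_of_nonneg_left hBq (sq_nonneg _)
      have hηe : η^2*0.957 = 36*(1/1000000)^2*S^2*0.957 := by rw [hηd, ep]; ring
      have hfin : 4 - 4*cos (π/6-β) + (2*ep*C*(cos β - cos (13*β)) + 2*ka*(C^2-S^2)*(cos β + cos (26*β)))
          + η*(ep*S*(26*sin β - 2*sin (13*β)) + 4*ka*S*C*(26*sin β + sin (26*β)))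
          - η^2*(0.334 + R*(sin β^2/cos β)) ≤ 0 := by
        have e1 : τ = U - (1 + ep*C + ka*(C^2-S^2)) := by rw [hU]; ring
        have e2 : s = V - (-(13*ep*S) - 52*ka*(S*C)) := by rw [hV]; ring
        rw [← hident]
        rw [e1, e2] at hw
        have hRr : 2*R*cos β = 2*cos β + 4*r/3*cos β := by rw [hRd]; ring
        nlinarith [hw, hG, hUV, hRr]
      rw [hηd, ep, ka] at hfin
      rw [hηd, ep] at hBq2 hηe
      nlinarith [hfin, hT, hBq2, hηe]

end H843PK
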