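import Pool.Agent.Helper843.PK.Body
import Pool.Agent.Helper843.PK.Core
set_option autoImplicit false
open Real

namespace H843PK

theorem h_periodic (x : ℝ) (k : ℤ) : h (x + k * (2*π)) = h x := by
  have e1 : 13 * (x + k*(2*π)) = 13*x + ((13*k : ℤ):ℝ)*(2*π) := by push_cast; ring
  have e2 : 26 * (x + k*(2*π)) = 26*x + ((26*k : ℤ):ℝ)*(2*π) := by push_cast; ring
  rw [h, e1, e2, Real.cos_add_int_mul_two_pi, Real.cos_add_int_mul_two_pi, h]

theorem normSq_rot (z : ℂ) (θ : ℝ) :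
    (z.re * cos θ + z.im * sin θ)^2 + (-z.re * sin θ + z.im * cos θ)^2 = ‖z‖^2 := by
  rw [Complex.sq_norm, Complex.normSq_apply]
  have := Real.sin_sq_add_cos_sq θ
  linear_combination (z.re*z.re + z.im*z.im) * this

/-- The geometric core: two discs and the near-disc body, in relative coordinates. -/
theorem geo_core (r : ℝ) (hr : 0 < r) (φ θ β : ℝ) (hβ0 : 0 ≤ β) (hβ1 : β ≤ π/2)
    (u v w : ℂ)
    (hv : ‖v‖ ≤ 2/√3 * r) (hw : ‖w‖ ≤ 2/√3 * r) (hvw : 2*r ≤ ‖v - w‖)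
    (hin : ∀ z ∈ body r, ‖(⟨cos φ, sin φ⟩ : ℂ) * z + u‖ ≤ (1+2/√3)*r)
    (hs2 : r * h (θ+π-β-φ) + r ≤ (v.re - u.re) * cos (θ+π-β) + (v.im-u.im) * sin (θ+π-β))
    (hs3 : r * h (θ+π+β-φ) + r ≤ (w.re - u.re) * cos (θ+π+β) + (w.im-u.im) * sin (θ+π+β)) :
    False := by
  have hs43 : (2/√3)^2 = (4/3 : ℝ) := by
    rw [div_pow, Real.sq_sqrt (by norm_num)]; norm_num
  obtain ⟨ψ, hψ⟩ : ∃ ψ : ℝ, ψ = θ - φ := ⟨_, rfl⟩
  have hr2 : 0 < r^2 := by positivity
  refine core_real β ψ ((v.re * cos θ + v.im * sin θ)/r) ((-v.re * sin θ + v.im * cos θ)/r)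
    ((w.re * cos θ + w.im * sin θ)/r) ((-w.re * sin θ + w.im * cos θ)/r)
    ((u.re * cos θ + u.im * sin θ)/r) ((-u.re * sin θ + u.im * cos θ)/r) hβ0 hβ1 ?_ ?_ ?_ ?_ ?_ ?_
  · rw [div_pow, div_pow, ← add_div, normSq_rot, div_le_iff₀ hr2, ← hs43, ← mul_pow]
    exact pow_le_pow_left₀ (norm_nonneg _) hv 2
  · rw [div_pow, div_pow, ← add_div, normSq_rot, div_le_iff₀ hr2, ← hs43, ← mul_pow]
    exact pow_le_pow_left₀ (norm_nonneg _) hw 2
  · have e : ((v.re * cos θ + v.im * sin θ)/r - (w.re * cos θ + w.im * sin θ)/r)^2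
      + ((-v.re * sin θ + v.im * cos θ)/r - (-w.re * sin θ + w.im * cos θ)/r)^2
      = ‖v - w‖^2 / r^2 := by
      rw [← normSq_rot (v-w) θ, Complex.sub_re, Complex.sub_im]
      field_simp
      ring
    rw [e, le_div_iff₀ hr2]
    have := pow_le_pow_left₀ (by positivity) hvw 2
    linarith
  · have hp := hin _ (body_pt r hr ψ)
    have hp2 := pow_le_pow_left₀ (norm_nonneg _) hp 2
    have e : ‖(⟨cos φ, sin φ⟩ : ℂ) * (⟨r * (h ψ * cos ψ - h' ψ * sin ψ), r * (h ψ * sin ψ + h' ψ * cos ψ)⟩ : ℂ) + u‖^2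
        = r^2 * (((u.re * cos θ + u.im * sin θ)/r + h ψ)^2 + ((-u.re * sin θ + u.im * cos θ)/r + h' ψ)^2) := by
      rw [← normSq_rot _ θ]
      have hθ : θ = φ + ψ := by rw [hψ]; ring
      have hc : cos θ = cos φ * cos ψ - sin φ * sin ψ := by rw [hθ, Real.cos_add]
      have hs : sin θ = sin φ * cos ψ + cos φ * sin ψ := by rw [hθ, Real.sin_add]
      have hcs := Real.sin_sq_add_cos_sq φ
      have hcs2 := Real.sin_sq_add_cos_sq ψ
      simp only [Complex.add_re, Complex.mul_re, Complex.add_im, Complex.mul_im]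
      have x1 : (cos φ * (r * (h ψ * cos ψ - h' ψ * sin ψ)) - sin φ * (r * (h ψ * sin ψ + h' ψ * cos ψ)))
          = r * (h ψ * cos θ - h' ψ * sin θ) := by rw [hc, hs]; ring
      have x2 : (cos φ * (r * (h ψ * sin ψ + h' ψ * cos ψ)) + sin φ * (r * (h ψ * cos ψ - h' ψ * sin ψ)))
          = r * (h ψ * sin θ + h' ψ * cos θ) := by rw [hc, hs]; ring
      rw [x1, x2]
      have hcs3 := Real.sin_sq_add_cos_sq θ
      have y1 : (r * (h ψ * cos θ - h' ψ * sin θ) + u.re) * cos θ + (r * (h ψ * sin θ + h' ψ * cos θ) + u.im) * sin θ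
          = r * ((u.re * cos θ + u.im * sin θ)/r + h ψ) := by
        field_simp
        linear_combination (r * h ψ) * hcs3
      have y2 : -(r * (h ψ * cos θ - h' ψ * sin θ) + u.re) * sin θ + (r * (h ψ * sin θ + h' ψ * cos θ) + u.im) * cos θ
          = r * ((-u.re * sin θ + u.im * cos θ)/r + h' ψ) := by
        field_simp
        linear_combination (r * h' ψ) * hcs3
      rw [y1, y2]
      ring
    rw [e, mul_pow, mul_comm ((1+2/√3)^2)] at hp2
    exact le_of_mul_le_mul_left hp2 hr2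
  · have e1 : θ + π - β - φ = ψ + π - β := by rw [hψ]; ring
    have c1 : cos (θ+π-β) = -(cos β * cos θ + sin β * sin θ) := by
      have : θ + π - β = (θ - β) + π := by ring
      rw [this, Real.cos_add_pi, Real.cos_sub]; ring
    have s1 : sin (θ+π-β) = -(cos β * sin θ - sin β * cos θ) := by
      have : θ + π - β = (θ - β) + π := by ring
      rw [this, Real.sin_add_pi, Real.sin_sub]; ring
    rw [e1, c1, s1] at hs2
    have : r * (1 + h (ψ+π-β)) ≤ r * (-cos β * ((v.re * cos θ + v.im * sin θ)/r - (u.re * cos θ + u.im * sin θ)/r)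
        + sin β * ((-v.re * sin θ + v.im * cos θ)/r - (-u.re * sin θ + u.im * cos θ)/r)) := by
      have e : r * (-cos β * ((v.re * cos θ + v.im * sin θ)/r - (u.re * cos θ + u.im * sin θ)/r)
        + sin β * ((-v.re * sin θ + v.im * cos θ)/r - (-u.re * sin θ + u.im * cos θ)/r))
        = (v.re - u.re) * -(cos β * cos θ + sin β * sin θ) + (v.im - u.im) * -(cos β * sin θ - sin β * cos θ) := by
        field_simp
        ring
      rw [e]; linarith
    exact le_of_mul_le_mul_left this hr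
  · have e1 : θ + π + β - φ = ψ + π + β := by rw [hψ]; ring
    have c1 : cos (θ+π+β) = -(cos β * cos θ - sin β * sin θ) := by
      have : θ + π + β = (θ + β) + π := by ring
      rw [this, Real.cos_add_pi, Real.cos_add]; ring
    have s1 : sin (θ+π+β) = -(cos β * sin θ + sin β * cos θ) := by
      have : θ + π + β = (θ + β) + π := by ring
      rw [this, Real.sin_add_pi, Real.sin_add]; ring
    rw [e1, c1, s1] at hs3
    have : r * (1 + h (ψ+π+β)) ≤ r * (-cos β * ((w.re * cos θ + w.im * sin θ)/r - (u.re * cos θ + u.im * sin θ)/r)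
        - sin β * ((-w.re * sin θ + w.im * cos θ)/r - (-u.re * sin θ + u.im * cos θ)/r)) := by
      have e : r * (-cos β * ((w.re * cos θ + w.im * sin θ)/r - (u.re * cos θ + u.im * sin θ)/r)
        - sin β * ((-w.re * sin θ + w.im * cos θ)/r - (-u.re * sin θ + u.im * cos θ)/r))
        = (w.re - u.re) * -(cos β * cos θ - sin β * sin θ) + (w.im - u.im) * -(cos β * sin θ + sin β * cos θ) := by
        field_simp
        ring
      rw [e]; linarith
    exact le_of_mul_le_mul_left this hr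

/-- any two directions are `θ+π∓β` up to full turns and order -/
theorem two_dirs (α γ : ℝ) : ∃ (θ β : ℝ) (k : ℤ), |β| ≤ π/2 ∧ α = θ + π - β ∧
    γ = θ + π + β + k*(2*π) := by
  have hpi := Real.pi_pos
  obtain ⟨k, hk⟩ : ∃ k : ℤ, k = round ((γ-α)/2/π) := ⟨_, rfl⟩
  have h1 := abs_sub_round ((γ-α)/2/π)
  rw [← hk] at h1
  refine ⟨α + ((γ-α)/2 - k*π) - π, (γ-α)/2 - k*π, k, ?_, by ring, by ring⟩
  have h2 : (γ-α)/2 - k*π = ((γ-α)/2/π - k)*π := by field_simp
  rw [h2, abs_mul, abs_of_pos hpi]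
  nlinarith

theorem geo_aux (r : ℝ) (hr : 0 < r) (φ α γ : ℝ)
    (u v w : ℂ)
    (hv : ‖v‖ ≤ 2/√3 * r) (hw : ‖w‖ ≤ 2/√3 * r) (hvw : 2*r ≤ ‖v - w‖)
    (hin : ∀ z ∈ body r, ‖(⟨cos φ, sin φ⟩ : ℂ) * z + u‖ ≤ (1+2/√3)*r)
    (hs2 : r * h (α-φ) + r ≤ (v.re - u.re) * cos α + (v.im-u.im) * sin α)
    (hs3 : r * h (γ-φ) + r ≤ (w.re - u.re) * cos γ + (w.im-u.im) * sin γ) :
    False := by
  obtain ⟨θ, β, k, hβ, hα, hγ⟩ := two_dirs α γ
  have hβ' := abs_le.1 hβ
  have e1 : γ - φ = (θ + π + β - φ) + k*(2*π) := by rw [hγ]; ring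
  rw [e1, h_periodic, hγ, Real.cos_add_int_mul_two_pi, Real.sin_add_int_mul_two_pi] at hs3
  rw [hα] at hs2
  rcases le_total 0 β with h0 | h0
  · exact geo_core r hr φ θ β h0 hβ'.2 u v w hv hw hvw hin hs2 hs3
  · have f1 : θ + π + β = θ + π - (-β) := by ring
    have f2 : θ + π - β = θ + π + (-β) := by ring
    rw [f1] at hs3
    rw [f2] at hs2
    rw [norm_sub_rev] at hvw
    exact geo_core r hr φ θ (-β) (by linarith) (by linarith [hβ'.1]) u w v hw hv hvw hin hs3 hs2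

end H843PK
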