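import Pool.Agent.Helper843.PK.Geo
set_option autoImplicit false
open Real

namespace H843PK

theorem image_closedBall (a b : ℂ) (ha : ‖a‖ = 1) (r : ℝ) :
    (fun z => a * z + b) '' Metric.closedBall 0 r = Metric.closedBall b r := by
  have ha0 : a ≠ 0 := by
    intro h0; rw [h0, norm_zero] at ha; norm_num at ha
  ext w
  constructor
  · rintro ⟨z, hz, rfl⟩
    rw [mem_closedBall_zero_iff] at hz
    rw [Metric.mem_closedBall, dist_eq_norm]
    have : a * z + b - b = a * z := by ring
    rw [this, norm_mul, ha, one_mul]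
    exact hz
  · intro hw
    rw [Metric.mem_closedBall, dist_eq_norm] at hw
    refine ⟨a⁻¹ * (w - b), ?_, ?_⟩
    · rw [mem_closedBall_zero_iff, norm_mul, norm_inv, ha, inv_one, one_mul]
      exact hw
    · show a * (a⁻¹ * (w - b)) + b = w
      rw [← mul_assoc, mul_inv_cancel₀ ha0]; ring

theorem ball_subset_image_body (a b : ℂ) (ha : ‖a‖ = 1) (r : ℝ) (hr : 0 < r) :
    Metric.ball b (r/2) ⊆ (fun z => a * z + b) '' body r := by
  have ha0 : a ≠ 0 := by
    intro h0; rw [h0, norm_zero] at ha; norm_num at ha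
  intro w hw
  rw [Metric.mem_ball, dist_eq_norm] at hw
  refine ⟨a⁻¹ * (w - b), ?_, ?_⟩
  · apply body_ball r hr
    rw [mem_ball_zero_iff, norm_mul, norm_inv, ha, inv_one, one_mul]
    exact hw
  · show a * (a⁻¹ * (w - b)) + b = w
    rw [← mul_assoc, mul_inv_cancel₀ ha0]; ring

theorem image_convex (a b : ℂ) (K : Set ℂ) (hK : Convex ℝ K) :
    Convex ℝ ((fun z => a * z + b) '' K) := by
  rintro _ ⟨x, hx, rfl⟩ _ ⟨y, hy, rfl⟩ s t hs ht hst
  refine ⟨s • x + t • y, hK hx hy hs ht hst, ?_⟩
  show a * (s • x + t • y) + b = s • (a * x + b) + t • (a * y + b)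
  simp only [Complex.real_smul]
  have : (s : ℂ) + (t : ℂ) = 1 := by exact_mod_cast hst
  linear_combination (-b) * this

theorem norm_le_of_closedBall_subset (b c : ℂ) (r R : ℝ) (hr : 0 < r)
    (hsub : Metric.closedBall b r ⊆ Metric.closedBall c R) : ‖b - c‖ + r ≤ R := by
  rcases eq_or_ne b c with rfl | hne
  · have : b + (r : ℂ) ∈ Metric.closedBall b R := by
      apply hsub
      rw [Metric.mem_closedBall, dist_eq_norm]
      simp [abs_of_pos hr]
    rw [Metric.mem_closedBall, dist_eq_norm] at this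
    simp [abs_of_pos hr] at this
    simpa using this
  · have hpos : 0 < ‖b - c‖ := norm_pos_iff.2 (sub_ne_zero.2 hne)
    have hmem : b + ((r / ‖b - c‖ : ℝ) : ℂ) * (b - c) ∈ Metric.closedBall c R := by
      apply hsub
      rw [Metric.mem_closedBall, dist_eq_norm]
      have : b + ((r / ‖b - c‖ : ℝ) : ℂ) * (b - c) - b = ((r / ‖b - c‖ : ℝ) : ℂ) * (b - c) := by ring
      rw [this, norm_mul, Complex.norm_real, Real.norm_eq_abs, abs_of_pos (by positivity)]
      field_simp
      exact le_rfl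
    rw [Metric.mem_closedBall, dist_eq_norm] at hmem
    have : b + ((r / ‖b - c‖ : ℝ) : ℂ) * (b - c) - c = ((1 + r / ‖b - c‖ : ℝ) : ℂ) * (b - c) := by
      push_cast; ring
    rw [this, norm_mul, Complex.norm_real, Real.norm_eq_abs, abs_of_pos (by positivity)] at hmem
    have e : (1 + r / ‖b - c‖) * ‖b - c‖ = ‖b - c‖ + r := by field_simp
    rw [e] at hmem
    exact hmem

theorem dist_ge_of_disjoint (b c : ℂ) (r : ℝ) (hr : 0 < r)
    (hd : Disjoint (interior (Metric.closedBall b r)) (interior (Metric.closedBall c r))) :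
    2 * r ≤ ‖b - c‖ := by
  rw [interior_closedBall b hr.ne', interior_closedBall c hr.ne',
    disjoint_ball_ball_iff hr hr, dist_eq_norm] at hd
  linarith

/-- direction data at the body from a separating direction -/
theorem sep_body (r : ℝ) (hr : 0 < r) (a b v : ℂ) (φ : ℝ) (ha : a = ⟨cos φ, sin φ⟩)
    (hd : Disjoint (interior ((fun z => a * z + b) '' body r)) (interior (Metric.closedBall v r))) :
    ∃ α : ℝ, r * h (α - φ) + r ≤ (v.re - b.re) * cos α + (v.im - b.im) * sin α := by
  have hn : ‖a‖ = 1 := by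
    rw [ha, Complex.norm_def, Complex.normSq_mk, ← sq, ← sq, cos_sq_add_sin_sq, Real.sqrt_one]
  rw [interior_closedBall v hr.ne'] at hd
  obtain ⟨α, hα⟩ := separate ((fun z => a * z + b) '' body r) (image_convex a b _ (body_convex r))
    ((body_compact r hr).image (by fun_prop)).isClosed
    ⟨b, mem_interior.2 ⟨Metric.ball b (r/2), ball_subset_image_body a b hn r hr, Metric.isOpen_ball,
      Metric.mem_ball_self (by positivity)⟩⟩ v r hr hd
  refine ⟨α, ?_⟩
  have h1 := hα _ ⟨_, body_pt r hr (α - φ), rfl⟩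
  obtain ⟨t, ht⟩ : ∃ t : ℝ, t = α - φ := ⟨_, rfl⟩
  rw [← ht] at h1 ⊢
  have hα2 : α = φ + t := by rw [ht]; ring
  rw [hα2] at h1 ⊢
  simp only [ha, Complex.add_re, Complex.mul_re, Complex.add_im, Complex.mul_im] at h1
  have e : (cos φ * (r * (h t * cos t - h' t * sin t)) - sin φ * (r * (h t * sin t + h' t * cos t))) * cos (φ + t)
      + (cos φ * (r * (h t * sin t + h' t * cos t)) + sin φ * (r * (h t * cos t - h' t * sin t))) * sin (φ + t)
      = r * h t := by
    have x1 : (cos φ * (r * (h t * cos t - h' t * sin t)) - sin φ * (r * (h t * sin t + h' t * cos t)))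
        = r * (h t * cos (φ + t) - h' t * sin (φ + t)) := by
      rw [Real.cos_add, Real.sin_add]; ring
    have x2 : (cos φ * (r * (h t * sin t + h' t * cos t)) + sin φ * (r * (h t * cos t - h' t * sin t)))
        = r * (h t * sin (φ + t) + h' t * cos (φ + t)) := by
      rw [Real.cos_add, Real.sin_add]; ring
    rw [x1, x2]
    have := Real.sin_sq_add_cos_sq (φ + t)
    linear_combination (r * h t) * this
  linarith

theorem main (r : ℝ) (hr : 0 < r) (a0 b0 b1 b2 c : ℂ) (ha0 : ‖a0‖ = 1)
    (h0 : (fun z => a0 * z + b0) '' body r ⊆ Metric.closedBall c ((1+2/√3)*r))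
    (h1 : Metric.closedBall b1 r ⊆ Metric.closedBall c ((1+2/√3)*r))
    (h2 : Metric.closedBall b2 r ⊆ Metric.closedBall c ((1+2/√3)*r))
    (h01 : Disjoint (interior ((fun z => a0 * z + b0) '' body r)) (interior (Metric.closedBall b1 r)))
    (h02 : Disjoint (interior ((fun z => a0 * z + b0) '' body r)) (interior (Metric.closedBall b2 r)))
    (h12 : Disjoint (interior (Metric.closedBall b1 r)) (interior (Metric.closedBall b2 r))) :
    False := by
  obtain ⟨φ, hφ⟩ : ∃ φ : ℝ, a0 = ⟨cos φ, sin φ⟩ := by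
    refine ⟨a0.arg, ?_⟩
    have e1 := Complex.norm_mul_cos_arg a0
    have e2 := Complex.norm_mul_sin_arg a0
    rw [ha0, one_mul] at e1 e2
    rw [e1, e2]
  obtain ⟨α, hα⟩ := sep_body r hr a0 b0 b1 φ hφ h01
  obtain ⟨γ, hγ⟩ := sep_body r hr a0 b0 b2 φ hφ h02
  have k1 := norm_le_of_closedBall_subset b1 c r _ hr h1
  have k2 := norm_le_of_closedBall_subset b2 c r _ hr h2
  have k3 := dist_ge_of_disjoint b1 b2 r hr h12
  refine geo_aux r hr φ α γ (b0 - c) (b1 - c) (b2 - c) (by linarith) (by linarith) ?_ ?_ ?_ ?_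
  · have : b1 - c - (b2 - c) = b1 - b2 := by ring
    rw [this]; exact k3
  · intro z hz
    have := h0 ⟨z, hz, rfl⟩
    rw [Metric.mem_closedBall, dist_eq_norm] at this
    rw [← hφ]
    have e : a0 * z + (b0 - c) = a0 * z + b0 - c := by ring
    rw [e]; exact this
  · simp only [Complex.sub_re, Complex.sub_im]
    linarith
  · simp only [Complex.sub_re, Complex.sub_im]
    linarith

/-- three discs of radius `r` need radius `(1+2/√3) r` -/
theorem three_lower (r R : ℝ) (hr : 0 < r) (b1 b2 b3 c : ℂ)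
    (h1 : Metric.closedBall b1 r ⊆ Metric.closedBall c R)
    (h2 : Metric.closedBall b2 r ⊆ Metric.closedBall c R)
    (h3 : Metric.closedBall b3 r ⊆ Metric.closedBall c R)
    (h12 : Disjoint (interior (Metric.closedBall b1 r)) (interior (Metric.closedBall b2 r)))
    (h13 : Disjoint (interior (Metric.closedBall b1 r)) (interior (Metric.closedBall b3 r)))
    (h23 : Disjoint (interior (Metric.closedBall b2 r)) (interior (Metric.closedBall b3 r))) :
    (1+2/√3)*r ≤ R := by
  have k1 := norm_le_of_closedBall_subset b1 c r _ hr h1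
  have k2 := norm_le_of_closedBall_subset b2 c r _ hr h2
  have k3 := norm_le_of_closedBall_subset b3 c r _ hr h3
  have d12 := dist_ge_of_disjoint b1 b2 r hr h12
  have d13 := dist_ge_of_disjoint b1 b3 r hr h13
  have d23 := dist_ge_of_disjoint b2 b3 r hr h23
  have s1 := pow_le_pow_left₀ (norm_nonneg _) (show ‖b1 - c‖ ≤ R - r by linarith) 2
  have s2 := pow_le_pow_left₀ (norm_nonneg _) (show ‖b2 - c‖ ≤ R - r by linarith) 2
  have s3 := pow_le_pow_left₀ (norm_nonneg _) (show ‖b3 - c‖ ≤ R - r by linarith) 2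
  have t12 := pow_le_pow_left₀ (by positivity) d12 2
  have t13 := pow_le_pow_left₀ (by positivity) d13 2
  have t23 := pow_le_pow_left₀ (by positivity) d23 2
  have hRr : 0 ≤ R - r := by linarith [norm_nonneg (b1 - c)]
  rw [Complex.sq_norm, Complex.normSq_apply] at s1 s2 s3 t12 t13 t23
  simp only [Complex.sub_re, Complex.sub_im] at s1 s2 s3 t12 t13 t23
  have hkey : 4*r^2 ≤ 3*(R-r)^2 := by
    nlinarith [sq_nonneg ((b1.re - c.re) + (b2.re - c.re) + (b3.re - c.re)),
      sq_nonneg ((b1.im - c.im) + (b2.im - c.im) + (b3.im - c.im))]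
  have hs43 : (2/√3*r)^2 ≤ (R-r)^2 := by
    rw [mul_pow, div_pow, Real.sq_sqrt (by norm_num)]; linarith
  have := abs_le_of_sq_le_sq' hs43 hRr
  linarith [this.2]

/-- the standard placement of three discs -/
theorem three_upper (r : ℝ) (hr : 0 < r) :
    ∃ b : Fin 3 → ℂ, (∀ i, Metric.closedBall (b i) r ⊆ Metric.closedBall 0 ((1+2/√3)*r)) ∧
      ∀ i j, i ≠ j → Disjoint (interior (Metric.closedBall (b i) r)) (interior (Metric.closedBall (b j) r)) := by
  have h3 : (√3)^2 = 3 := Real.sq_sqrt (by norm_num)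
  have h30 : 0 < √3 := by positivity
  have key : ∀ z : ℂ, z.re^2+z.im^2 = 4/3*r^2 → ‖z‖ = 2/√3*r := by
    intro z hz
    rw [Complex.norm_def, Complex.normSq_apply, ← sq, ← sq, hz]
    rw [show 4/3*r^2 = (2/√3*r)^2 by rw [mul_pow, div_pow, h3]; ring]
    exact Real.sqrt_sq (by positivity)
  have key2 : ∀ z w : ℂ, (z.re-w.re)^2+(z.im-w.im)^2 = 4*r^2 →
      Disjoint (interior (Metric.closedBall z r)) (interior (Metric.closedBall w r)) := by
    intro z w hz
    rw [interior_closedBall z hr.ne', interior_closedBall w hr.ne',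
      disjoint_ball_ball_iff hr hr, dist_eq_norm, Complex.norm_def, Complex.normSq_apply, ← sq, ← sq]
    simp only [Complex.sub_re, Complex.sub_im]
    rw [hz, show 4*r^2 = (2*r)^2 by ring, Real.sqrt_sq (by positivity)]
    linarith
  obtain ⟨s, hs⟩ : ∃ s : ℝ, s = √3/3*r := ⟨_, rfl⟩
  have hs2 : s^2 = r^2/3 := by rw [hs, mul_pow, div_pow, h3]; ring
  refine ⟨![⟨2*s, 0⟩, ⟨-s, r⟩, ⟨-s, -r⟩], ?_, ?_⟩
  · intro i
    apply Metric.closedBall_subset_closedBall'
    rw [dist_eq_norm, sub_zero, key]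
    · linarith
    · fin_cases i <;> simp <;> nlinarith
  · intro i j hij
    apply key2
    fin_cases i <;> fin_cases j <;> simp at hij ⊢ <;> nlinarith

theorem supportFn_closedBall (r : ℝ) (hr : 0 < r) (θ : ℝ) :
    supportFn (Metric.closedBall 0 r) θ = r := by
  unfold supportFn
  apply IsGreatest.csSup_eq
  constructor
  · refine ⟨⟨r * cos θ, r * sin θ⟩, ?_, ?_⟩
    · rw [mem_closedBall_zero_iff, Complex.norm_def, Complex.normSq_mk]
      rw [show r * cos θ * (r * cos θ) + r * sin θ * (r * sin θ) = r^2 * (sin θ^2+cos θ^2) by ring,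
        Real.sin_sq_add_cos_sq, mul_one, Real.sqrt_sq hr.le]
    · show r * cos θ * cos θ + r * sin θ * sin θ = r
      have := Real.sin_sq_add_cos_sq θ
      linear_combination r * this
  · rintro _ ⟨z, hz, rfl⟩
    rw [mem_closedBall_zero_iff] at hz
    exact (body_aux_dotle z θ).trans hz

theorem perimeter_closedBall (r : ℝ) (hr : 0 < r) : perimeter (Metric.closedBall 0 r) = 2*π*r := by
  unfold perimeter
  rw [show (fun θ => supportFn (Metric.closedBall 0 r) θ) = fun _ => r from
    funext (supportFn_closedBall r hr)]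
  simp

end H843PK
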