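import Mathlib
set_option autoImplicit false
open Real

namespace H843PK


/-- small amplitude -/
noncomputable def ep : ℝ := 1/1000000
/-- second small amplitude -/
noncomputable def ka : ℝ := 1/100000000000

noncomputable def h (θ : ℝ) : ℝ := 1 + ep * cos (13*θ) + ka * cos (26*θ)
noncomputable def h' (θ : ℝ) : ℝ := -(13*ep * sin (13*θ)) - 26*ka * sin (26*θ)

theorem h_support_sin (n : ℕ) (x : ℝ) : |sin (n * x)| ≤ n * |sin x| := by
  induction n with
  | zero => simp
  | succ n ih =>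
    have e : ((n + 1 : ℕ) : ℝ) * x = n * x + x := by push_cast; ring
    rw [e, sin_add]
    have h1 : |cos x| ≤ 1 := abs_cos_le_one x
    have h2 : |cos (n * x)| ≤ 1 := abs_cos_le_one _
    calc |sin (n * x) * cos x + cos (n * x) * sin x|
        ≤ |sin (n * x) * cos x| + |cos (n * x) * sin x| := abs_add_le _ _
      _ = |sin (n * x)| * |cos x| + |cos (n * x)| * |sin x| := by rw [abs_mul, abs_mul]
      _ ≤ (n * |sin x|) * 1 + 1 * |sin x| := by
          apply add_le_add
          · exact mul_le_mul ih h1 (abs_nonneg _) (by positivity)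
          · exact mul_le_mul_of_nonneg_right h2 (abs_nonneg _)
      _ = ((n + 1 : ℕ) : ℝ) * |sin x| := by push_cast; ring

theorem h_support_one_sub (x : ℝ) : 1 - cos x = 2 * sin (x / 2) ^ 2 := by
  have h := cos_sq' (x / 2)
  have h2 := cos_two_mul (x / 2)
  have h3 : 2 * (x / 2) = x := by ring
  rw [h3] at h2
  rw [h2, h]; ring

theorem h_support_cos (n : ℕ) (x : ℝ) : 1 - cos (n * x) ≤ (n : ℝ) ^ 2 * (1 - cos x) := by
  rw [h_support_one_sub, h_support_one_sub]
  have h := h_support_sin n (x / 2)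
  have e : (n : ℝ) * x / 2 = n * (x / 2) := by ring
  rw [e]
  have h2 : |sin (n * (x / 2))| ^ 2 ≤ (n * |sin (x / 2)|) ^ 2 := pow_le_pow_left₀ (abs_nonneg _) h 2
  rw [sq_abs, mul_pow, sq_abs] at h2
  linarith

theorem h_support_B (n : ℕ) (x : ℝ) : |sin (n * x) - n * sin x| ≤ (n : ℝ) ^ 3 * (1 - cos x) := by
  have hv : 0 ≤ 1 - cos x := by linarith [cos_le_one x]
  induction n with
  | zero => simp
  | succ n ih =>
    have e : ((n + 1 : ℕ) : ℝ) * x = n * x + x := by push_cast; ring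
    rw [e, sin_add]
    have e2 : sin (n * x) * cos x + cos (n * x) * sin x - ((n + 1 : ℕ) : ℝ) * sin x
        = (sin (n * x) - n * sin x) * cos x + (-(n * sin x * (1 - cos x)))
          + (-(sin x * (1 - cos (n * x)))) := by push_cast; ring
    rw [e2]
    have h1 : |cos x| ≤ 1 := abs_cos_le_one x
    have hs : |sin x| ≤ 1 := abs_sin_le_one x
    have hc := h_support_cos n x
    have hcn : 0 ≤ 1 - cos (n * x) := by linarith [cos_le_one (n * x)]
    have a1 : |(sin (n * x) - n * sin x) * cos x| ≤ (n : ℝ) ^ 3 * (1 - cos x) := by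
      rw [abs_mul]
      calc _ ≤ ((n : ℝ) ^ 3 * (1 - cos x)) * 1 := mul_le_mul ih h1 (abs_nonneg _) (by positivity)
        _ = _ := mul_one _
    have a2 : |-(n * sin x * (1 - cos x))| ≤ n * (1 - cos x) := by
      rw [abs_neg, abs_mul, abs_mul, abs_of_nonneg hv, abs_of_nonneg (Nat.cast_nonneg n)]
      apply mul_le_mul_of_nonneg_right _ hv
      calc (n : ℝ) * |sin x| ≤ n * 1 := mul_le_mul_of_nonneg_left hs (Nat.cast_nonneg n)
        _ = n := mul_one _
    have a3 : |-(sin x * (1 - cos (n * x)))| ≤ (n : ℝ) ^ 2 * (1 - cos x) := by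
      rw [abs_neg, abs_mul, abs_of_nonneg hcn]
      calc |sin x| * (1 - cos (n * x)) ≤ 1 * (1 - cos (n * x)) := mul_le_mul_of_nonneg_right hs hcn
        _ ≤ _ := by rw [one_mul]; exact hc
    refine (abs_add_le _ _).trans ?_
    have := abs_add_le ((sin (n * x) - n * sin x) * cos x) (-(n * sin x * (1 - cos x)))
    have hn : (0 : ℝ) ≤ n := Nat.cast_nonneg n
    have hn2 : 0 ≤ (2 * (n : ℝ) ^ 2 + 2 * n + 1) * (1 - cos x) := by positivity
    push_cast
    nlinarith

theorem h_support_A (n : ℕ) (hn : 1 ≤ n) (x : ℝ) : |cos (n * x) - cos x| ≤ (n : ℝ) ^ 2 * (1 - cos x) := by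
  have hv : 0 ≤ 1 - cos x := by linarith [cos_le_one x]
  have hc := h_support_cos n x
  have hcn : 0 ≤ 1 - cos (n * x) := by linarith [cos_le_one (n * x)]
  have hn1 : (1 : ℝ) ≤ n := by exact_mod_cast hn
  have hn2 : (1 : ℝ) ≤ (n : ℝ) ^ 2 := by nlinarith
  have h1 : 1 - cos x ≤ (n : ℝ) ^ 2 * (1 - cos x) := by nlinarith
  rw [abs_le]
  constructor <;> linarith

theorem h_support (θ φ : ℝ) : h θ * cos (φ-θ) + h' θ * sin (φ-θ) ≤ h φ := by
  obtain ⟨ψ, rfl⟩ : ∃ ψ, φ = θ + ψ := ⟨φ - θ, by ring⟩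
  have hv : 0 ≤ 1 - cos ψ := by linarith [cos_le_one ψ]
  have e0 : θ + ψ - θ = ψ := by ring
  rw [e0]
  have e13 : cos (13 * (θ + ψ)) = cos (13 * θ) * cos (13 * ψ) - sin (13 * θ) * sin (13 * ψ) := by
    rw [← cos_add]; congr 1; ring
  have e26 : cos (26 * (θ + ψ)) = cos (26 * θ) * cos (26 * ψ) - sin (26 * θ) * sin (26 * ψ) := by
    rw [← cos_add]; congr 1; ring
  have A13 := h_support_A 13 (by norm_num) ψ
  have A26 := h_support_A 26 (by norm_num) ψ
  have B13 := h_support_B 13 ψ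
  have B26 := h_support_B 26 ψ
  push_cast at A13 A26 B13 B26
  have key : ∀ (c s u w K L : ℝ), |c| ≤ 1 → |s| ≤ 1 → |u| ≤ K → |w| ≤ L → -(K + L) ≤ c * u - s * w := by
    intro c s u w K L hc hs hu hw
    have h1 : |c * u| ≤ K := by
      rw [abs_mul]
      calc |c| * |u| ≤ 1 * |u| := mul_le_mul_of_nonneg_right hc (abs_nonneg _)
        _ ≤ K := by rw [one_mul]; exact hu
    have h2 : |s * w| ≤ L := by
      rw [abs_mul]
      calc |s| * |w| ≤ 1 * |w| := mul_le_mul_of_nonneg_right hs (abs_nonneg _)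
        _ ≤ L := by rw [one_mul]; exact hw
    have h3 := (abs_le.1 h1).1
    have h4 := (abs_le.1 h2).2
    linarith
  have k13 := key (cos (13 * θ)) (sin (13 * θ)) (cos (13 * ψ) - cos ψ) (sin (13 * ψ) - 13 * sin ψ) _ _
    (abs_cos_le_one _) (abs_sin_le_one _) A13 B13
  have k26 := key (cos (26 * θ)) (sin (26 * θ)) (cos (26 * ψ) - cos ψ) (sin (26 * ψ) - 26 * sin ψ) _ _
    (abs_cos_le_one _) (abs_sin_le_one _) A26 B26
  unfold h h' ep ka
  rw [e13, e26]
  nlinarith


end H843PK
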